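import Pool.Agent.K3h50.ETT.Fin

set_option autoImplicit false
set_option maxRecDepth 100000

/-! The finite check. -/

namespace Pool.Agent.K3h50.ETT

theorem a1 : tabA.all (fun p => okM p.1 p.2) = true := by decide +kernel
theorem a2 : tabA.all (fun p => okT p.1 p.2) = true := by decide +kernel
theorem a3 : tabB.all (fun p => okM p.1 p.2) = true := by decide +kernel
theorem a4 : (List.range 128).all (fun i => (2 * i == 254) || tabA.any (fun p => p.1 == 2 * i) ||
    tabB.any (fun p => p.1 == 2 * i) ||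
    [0, 1, 2, 3, 4, 5, 6, 7].any (fun w => G (2 * i) ((2 * i) &&& cm w) ||
      G (2 * i) (((2 * i) &&& cm w) ^^^ (2 * i)))) = true := by decide +kernel
theorem a6 : tabB.all (fun p => (List.range 128).all fun i =>
    ((2 * i) &&& (254 ^^^ p.1) == 0) || ((2 * i) &&& (254 ^^^ p.1) == (254 ^^^ p.1)) ||
      !surv p.1 p.2 (2 * i)) = true := by decide +kernel

/-- a set of words without contradiction -/
structure QQ (E : ℕ) (Q : ℕ → Prop) : Prop where
  lt : ∀ s, Q s → ∃ i < 128, s = 2 * i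
  xor : ∀ s t, Q s → Q t → Q (s ^^^ t)
  QE : Q E
  Qc : ∀ w < 8, Q (E &&& cm w)
  hG : ∀ s, Q s → G E s = false

theorem QQ.surv {E : ℕ} {Q : ℕ → Prop} (h : QQ E Q) {M : ℕ} (hM : okM E M = true) {t : ℕ}
    (ht : Q t) : surv E M t = true := by
  have hb : ∀ s, Q s → M.testBit s = false := by
    intro s hs
    obtain ⟨i, hi, rfl⟩ := h.lt s hs
    have := List.all_eq_true.1 hM i (List.mem_range.2 hi)
    rw [beq_iff_eq] at this
    rw [this]
    exact h.hG _ hs
  unfold Pool.Agent.K3h50.ETT.surv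
  rw [List.all_eq_true]
  intro w hw
  have hw8 : w < 8 := by
    simp only [List.mem_cons, List.not_mem_nil, or_false] at hw
    omega
  rw [hb _ (h.xor _ _ ht (h.Qc w hw8)), hb _ (h.xor _ _ (h.xor _ _ ht (h.Qc w hw8)) h.QE)]
  rfl

theorem QQ.mem_LS {E : ℕ} {Q : ℕ → Prop} (h : QQ E Q) {M : ℕ} (hM : okM E M = true) {t : ℕ}
    (ht : Q t) : t ∈ LS E M := by
  unfold LS
  rw [List.mem_filter, List.mem_map]
  obtain ⟨i, hi, e⟩ := h.lt t ht
  exact ⟨⟨i, List.mem_range.2 hi, e.symm⟩, h.surv hM ht⟩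

theorem okT_false {E : ℕ} {Q : ℕ → Prop} (h : QQ E Q) {M : ℕ} (hM : okM E M = true)
    (hT : okT E M = true) {t1 t2 t4 : ℕ} (h1 : Q t1) (h2 : Q t2) (h4 : Q t4)
    (b1 : t1.testBit 1 = true) (b2 : t2.testBit 2 = true) (b3 : (t1 ^^^ t2).testBit 3 = true)
    (b4 : t4.testBit 4 = true) (b5 : (t1 ^^^ t4).testBit 5 = true)
    (b6 : (t2 ^^^ t4).testBit 6 = true) (b7 : (t1 ^^^ t2 ^^^ t4).testBit 7 = true) : False := by
  have c1 := List.all_eq_true.1 hT t1 (h.mem_LS hM h1)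
  rw [b1, Bool.not_true, Bool.false_or, List.all_eq_true] at c1
  have c2 := c1 t2 (h.mem_LS hM h2)
  rw [b2, b3, h.surv hM (h.xor _ _ h1 h2)] at c2
  simp only [Bool.not_true, Bool.false_or, List.all_eq_true] at c2
  have c3 := c2 t4 (h.mem_LS hM h4)
  rw [b4, b5, b6, b7, h.surv hM (h.xor _ _ h1 h4), h.surv hM (h.xor _ _ h2 h4),
    h.surv hM (h.xor _ _ (h.xor _ _ h1 h2) h4)] at c3
  simp at c3

/-- the result of the finite check -/
theorem fin_check {E : ℕ} {Q : ℕ → Prop} (h : QQ E Q) {t1 t2 t4 : ℕ} (h1 : Q t1) (h2 : Q t2)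
    (h4 : Q t4) (b1 : t1.testBit 1 = true) (b2 : t2.testBit 2 = true)
    (b3 : (t1 ^^^ t2).testBit 3 = true) (b4 : t4.testBit 4 = true)
    (b5 : (t1 ^^^ t4).testBit 5 = true) (b6 : (t2 ^^^ t4).testBit 6 = true)
    (b7 : (t1 ^^^ t2 ^^^ t4).testBit 7 = true) :
    E = 254 ∨ ((E = 14 ∨ E = 50 ∨ E = 84 ∨ E = 104 ∨ E = 152 ∨ E = 164 ∨ E = 194) ∧
      ∀ s, Q s → s &&& (254 ^^^ E) = 0 ∨ s &&& (254 ^^^ E) = 254 ^^^ E) := by
  obtain ⟨i, hi, hE⟩ := h.lt E h.QE
  have c := List.all_eq_true.1 a4 i (List.mem_range.2 hi)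
  rw [← hE] at c
  simp only [Bool.or_eq_true, beq_iff_eq, List.any_eq_true] at c
  rcases c with ((c | ⟨p, hp, c⟩) | ⟨p, hp, c⟩) | ⟨w, hw, c⟩
  · exact Or.inl c
  · exfalso
    have hM := List.all_eq_true.1 a1 p hp
    have hT := List.all_eq_true.1 a2 p hp
    rw [c] at hM hT
    exact okT_false h hM hT h1 h2 h4 b1 b2 b3 b4 b5 b6 b7
  · right
    have hM := List.all_eq_true.1 a3 p hp
    have h6 := List.all_eq_true.1 a6 p hp
    rw [c] at hM h6
    constructor
    · rw [← c]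
      simp only [tabB, List.mem_cons, List.not_mem_nil, or_false] at hp
      rcases hp with rfl | rfl | rfl | rfl | rfl | rfl | rfl <;> simp
    · intro s hs
      obtain ⟨j, hj, rfl⟩ := h.lt s hs
      have h7 := List.all_eq_true.1 h6 j (List.mem_range.2 hj)
      rw [h.surv hM hs] at h7
      simpa using h7
  · exfalso
    have hw8 : w < 8 := by
      simp only [List.mem_cons, List.not_mem_nil, or_false] at hw
      omega
    rcases c with c | c
    · rw [h.hG _ (h.Qc w hw8)] at c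
      exact Bool.false_ne_true c
    · rw [h.hG _ (h.xor _ _ (h.Qc w hw8) h.QE)] at c
      exact Bool.false_ne_true c

end Pool.Agent.K3h50.ETT
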