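import Mathlib

set_option autoImplicit false
set_option maxRecDepth 100000

/-!
The number of distinct values of pure tensors `w ⊗ t_m` (`w, m = 0, …, 7`, coded by the position
`8 w + m`) under the functionals `l ⊗ f_l + 7 ⊗ f_7`.
-/

namespace Pool.Agent.K3h50.ETT

/-- the number of classes of `c` under a list of masks -/
def cnt : ℕ → List ℕ → ℕ
  | c, [] => if c = 0 then 0 else 1
  | c, X :: Xs => cnt (c &&& X) Xs + cnt (c &&& ((2 ^ 64 - 1) ^^^ X)) Xs

/-- refine a list of classes -/
def spl (L : List ℕ) (X : ℕ) : List ℕ :=
  (L.flatMap fun c => [c &&& X, c &&& (18446744073709551615 ^^^ X)]).filter (· != 0)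

/-- at least 28 classes for all choices of masks -/
def chk : List ℕ → List (List ℕ) → Bool
  | L, [] => decide (28 ≤ L.length)
  | L, o :: os => decide (28 ≤ L.length) || o.all fun X => chk (spl L X) os

/-- the masks of `l ⊗ f_l` for the four possible `f_l`, for `l = 7, 1, …, 6` -/
def MT : ℕ → List ℕ
  | 1 => [12249977906276641280, 7349986743765984768, 6485282420969986560, 10808804034949977600]
  | 2 => [14757170082422194176, 7378585041211097088, 4340344141888880640, 10850860354722201600]
  | 3 => [48037663028718080, 57645195634461696, 25431703956380160, 16954469304253440]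
  | 4 => [17361641477096079360, 6510615553911029760, 4340410369274019840, 10851025923185049600]
  | 5 => [47851479037422080, 28710887422453248, 67555029229301760, 16888757307325440]
  | 6 => [225179981316096, 112589990658048, 264917625077760, 99344109404160]
  | _ => [12249791716603374080, 14699750059924048896, 17293823599910645760, 10808639749944153600]

/-- the check for given masks of `7` and `1` -/
def ch2 (X7 X1 : ℕ) : Bool := chk (spl [18446744073709551615] (X1 ^^^ X7))
    [(MT 2).map (· ^^^ X7), (MT 3).map (· ^^^ X7), (MT 4).map (· ^^^ X7),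
      (MT 5).map (· ^^^ X7), (MT 6).map (· ^^^ X7)]

/-! The same check with recursors, which the kernel evaluates faster. -/

/-- put `a` in front unless it is zero -/
def cz (a : ℕ) (l : List ℕ) : List ℕ := cond (Nat.beq a 0) l (a :: l)

/-- refine a list of classes -/
def spf (X Y : ℕ) (L : List ℕ) : List ℕ :=
  List.rec (motive := fun _ => List ℕ) [] (fun c _ ih => cz (Nat.land c X) (cz (Nat.land c Y) ih)) L

/-- length -/
def lenf (L : List ℕ) : ℕ := List.rec (motive := fun _ => ℕ) 0 (fun _ _ ih => Nat.add ih 1) L

/-- all -/
def allf (p : ℕ → Bool) (L : List ℕ) : Bool :=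
  List.rec (motive := fun _ => Bool) true (fun c _ ih => cond (p c) ih false) L

/-- at least 28 classes for all choices of masks -/
def chf (os : List (List ℕ)) : List ℕ → Bool :=
  List.rec (motive := fun _ => List ℕ → Bool) (fun L => Nat.ble 28 (lenf L))
    (fun o _ ih L => cond (Nat.ble 28 (lenf L)) true
      (allf (fun X => ih (spf X (Nat.xor 18446744073709551615 X) L)) o)) os

theorem lenf_eq (L : List ℕ) : lenf L = L.length := by
  induction L with
  | nil => rfl
  | cons c L ih =>
    show Nat.add (lenf L) 1 = _
    rw [ih]
    rfl

theorem allf_imp {p : ℕ → Bool} {L : List ℕ} (h : allf p L = true) : L.all p = true := by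
  induction L with
  | nil => rfl
  | cons c L ih =>
    have h' : cond (p c) (allf p L) false = true := h
    rw [List.all_cons]
    cases hp : p c with
    | false => rw [hp] at h'; exact h'
    | true => rw [hp] at h'; rw [Bool.true_and]; exact ih h'

theorem cz_eq (a : ℕ) (l : List ℕ) : cz a l = (a :: []).filter (· != 0) ++ l := by
  unfold cz
  by_cases h : a = 0
  · subst h; rfl
  · have h1 : Nat.beq a 0 = false := by
      cases a with
      | zero => exact absurd rfl h
      | succ n => rfl
    rw [h1]
    simp [h]

theorem spf_eq (X : ℕ) (L : List ℕ) : spf X (Nat.xor 18446744073709551615 X) L = spl L X := by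
  induction L with
  | nil => rfl
  | cons c L ih =>
    show cz (Nat.land c X) (cz (Nat.land c (Nat.xor 18446744073709551615 X))
      (spf X (Nat.xor 18446744073709551615 X) L)) = _
    rw [ih, cz_eq, cz_eq]
    show _ = List.filter _ (List.flatMap _ (c :: L))
    rw [List.flatMap_cons, List.filter_append]
    show _ = List.filter _ ([c &&& X] ++ [c &&& (18446744073709551615 ^^^ X)]) ++ spl L X
    rw [List.filter_append, List.append_assoc]
    rfl

theorem chf_imp (os : List (List ℕ)) : ∀ L : List ℕ, chf os L = true → chk L os = true := by
  induction os with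
  | nil =>
    intro L h
    have h' : Nat.ble 28 (lenf L) = true := h
    rw [lenf_eq] at h'
    unfold chk
    exact decide_eq_true (Nat.le_of_ble_eq_true h')
  | cons o os ih =>
    intro L h
    have h' : cond (Nat.ble 28 (lenf L)) true
      (allf (fun X => chf os (spf X (Nat.xor 18446744073709551615 X) L)) o) = true := h
    unfold chk
    rw [Bool.or_eq_true]
    cases hb : Nat.ble 28 (lenf L) with
    | true =>
      rw [lenf_eq] at hb
      exact Or.inl (decide_eq_true (Nat.le_of_ble_eq_true hb))
    | false =>
      rw [hb] at h'
      right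
      have h2 := allf_imp h'
      rw [List.all_eq_true] at h2 ⊢
      intro X hX
      have h3 := h2 X hX
      rw [spf_eq] at h3
      exact ih _ h3

theorem ch2_of (X7 X1 : ℕ) (h : chf [(MT 2).map (· ^^^ X7), (MT 3).map (· ^^^ X7),
      (MT 4).map (· ^^^ X7), (MT 5).map (· ^^^ X7), (MT 6).map (· ^^^ X7)]
      (spf (Nat.xor X1 X7) (Nat.xor 18446744073709551615 (Nat.xor X1 X7))
        [18446744073709551615]) = true) : ch2 X7 X1 = true := by
  unfold ch2
  refine chf_imp _ _ ?_
  rw [← spf_eq]
  exact h

end Pool.Agent.K3h50.ETT
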