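import Pool.Agent.K3h50.ETT.Cnt

set_option autoImplicit false
set_option maxRecDepth 100000

/-! The counting check, part 1. -/

namespace Pool.Agent.K3h50.ETT

theorem ch_00 : ch2 12249791716603374080 12249977906276641280 = true := ch2_of _ _ (by decide +kernel)
theorem ch_01 : ch2 12249791716603374080 7349986743765984768 = true := ch2_of _ _ (by decide +kernel)
theorem ch_02 : ch2 12249791716603374080 6485282420969986560 = true := ch2_of _ _ (by decide +kernel)
theorem ch_03 : ch2 12249791716603374080 10808804034949977600 = true := ch2_of _ _ (by decide +kernel)
theorem ch_10 : ch2 14699750059924048896 12249977906276641280 = true := ch2_of _ _ (by decide +kernel)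
theorem ch_11 : ch2 14699750059924048896 7349986743765984768 = true := ch2_of _ _ (by decide +kernel)
theorem ch_12 : ch2 14699750059924048896 6485282420969986560 = true := ch2_of _ _ (by decide +kernel)
theorem ch_13 : ch2 14699750059924048896 10808804034949977600 = true := ch2_of _ _ (by decide +kernel)

end Pool.Agent.K3h50.ETT
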