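import Pool.Agent.K3h50.ETT.Cnt

set_option autoImplicit false
set_option maxRecDepth 100000

/-! The counting check, part 2. -/

namespace Pool.Agent.K3h50.ETT

theorem ch_20 : ch2 17293823599910645760 12249977906276641280 = true := ch2_of _ _ (by decide +kernel)
theorem ch_21 : ch2 17293823599910645760 7349986743765984768 = true := ch2_of _ _ (by decide +kernel)
theorem ch_22 : ch2 17293823599910645760 6485282420969986560 = true := ch2_of _ _ (by decide +kernel)
theorem ch_23 : ch2 17293823599910645760 10808804034949977600 = true := ch2_of _ _ (by decide +kernel)
theorem ch_30 : ch2 10808639749944153600 12249977906276641280 = true := ch2_of _ _ (by decide +kernel)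
theorem ch_31 : ch2 10808639749944153600 7349986743765984768 = true := ch2_of _ _ (by decide +kernel)
theorem ch_32 : ch2 10808639749944153600 6485282420969986560 = true := ch2_of _ _ (by decide +kernel)
theorem ch_33 : ch2 10808639749944153600 10808804034949977600 = true := ch2_of _ _ (by decide +kernel)

end Pool.Agent.K3h50.ETT
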