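import Pool.Agent.K3h50.ETT.CntA
import Pool.Agent.K3h50.ETT.CntB

set_option autoImplicit false
set_option maxRecDepth 100000

/-! The counting check: at least 28 keys. -/

namespace Pool.Agent.K3h50.ETT

/-- `18446744073709551615 = 2 ^ 64 - 1` -/
theorem full_eq : (18446744073709551615 : ℕ) = 2 ^ 64 - 1 := by norm_num

theorem full_testBit (i : ℕ) : (2 ^ 64 - 1 : ℕ).testBit i = decide (i < 64) :=
  Nat.testBit_two_pow_sub_one 64 i

/-- the key of a position -/
def ky (Xs : List ℕ) (i : ℕ) : List Bool := Xs.map fun X => X.testBit i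

theorem sub_full {c X : ℕ} (hc : ∀ i, c.testBit i = true → i < 64) (i : ℕ) :
    (c &&& ((2 ^ 64 - 1) ^^^ X)).testBit i = (c.testBit i && !X.testBit i) := by
  rw [Nat.testBit_and, Nat.testBit_xor, full_testBit]
  by_cases h : c.testBit i = true
  · rw [h, decide_eq_true (hc i h)]
    simp
  · rw [Bool.not_eq_true] at h
    rw [h]; rfl

/-- the number of classes is at most the number of keys -/
theorem cnt_le (Xs : List ℕ) : ∀ c : ℕ, (∀ i, c.testBit i = true → i < 64) →
    cnt c Xs ≤ (ky Xs '' {i | c.testBit i = true}).ncard := by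
  induction Xs with
  | nil =>
    intro c hc
    unfold cnt
    split_ifs with h
    · exact Nat.zero_le _
    · obtain ⟨i, hi⟩ := Nat.exists_testBit_of_ne_zero h
      have hfin : {i | c.testBit i = true}.Finite :=
        (Set.finite_lt_nat 64).subset fun i hi => hc i hi
      rw [Nat.one_le_iff_ne_zero, ← Nat.pos_iff_ne_zero, Set.ncard_pos (hfin.image _)]
      exact ⟨_, ⟨i, hi, rfl⟩⟩
  | cons X Xs ih =>
    intro c hc
    have h1 : ∀ i, (c &&& X).testBit i = true → i < 64 := by
      intro i hi
      rw [Nat.testBit_and, Bool.and_eq_true] at hi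
      exact hc i hi.1
    have h2 : ∀ i, (c &&& ((2 ^ 64 - 1) ^^^ X)).testBit i = true → i < 64 := by
      intro i hi
      rw [sub_full hc, Bool.and_eq_true] at hi
      exact hc i hi.1
    have e1 := ih _ h1
    have e2 := ih _ h2
    have f1 : {i | (c &&& X).testBit i = true}.Finite :=
      (Set.finite_lt_nat 64).subset fun i hi => h1 i hi
    have f2 : {i | (c &&& ((2 ^ 64 - 1) ^^^ X)).testBit i = true}.Finite :=
      (Set.finite_lt_nat 64).subset fun i hi => h2 i hi
    have him : ky (X :: Xs) '' {i | c.testBit i = true} =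
        (List.cons true '' (ky Xs '' {i | (c &&& X).testBit i = true})) ∪
        (List.cons false '' (ky Xs '' {i | (c &&& ((2 ^ 64 - 1) ^^^ X)).testBit i = true})) := by
      ext k
      constructor
      · rintro ⟨i, hi, rfl⟩
        have hk : ky (X :: Xs) i = X.testBit i :: ky Xs i := rfl
        cases hX : X.testBit i with
        | true =>
          left
          refine ⟨ky Xs i, ⟨i, ?_, rfl⟩, ?_⟩
          · show (c &&& X).testBit i = true
            rw [Nat.testBit_and, hX, Bool.and_true]
            exact hi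
          · rw [hk, hX]
        | false =>
          right
          refine ⟨ky Xs i, ⟨i, ?_, rfl⟩, ?_⟩
          · show (c &&& ((2 ^ 64 - 1) ^^^ X)).testBit i = true
            rw [sub_full hc, hX, Bool.not_false, Bool.and_true]
            exact hi
          · rw [hk, hX]
      · rintro (⟨_, ⟨i, hi, rfl⟩, rfl⟩ | ⟨_, ⟨i, hi, rfl⟩, rfl⟩)
        · have hi' : (c &&& X).testBit i = true := hi
          rw [Nat.testBit_and, Bool.and_eq_true] at hi'
          refine ⟨i, hi'.1, ?_⟩
          show X.testBit i :: ky Xs i = _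
          rw [hi'.2]
        · have hi' : (c &&& ((2 ^ 64 - 1) ^^^ X)).testBit i = true := hi
          rw [sub_full hc, Bool.and_eq_true, Bool.not_eq_true'] at hi'
          refine ⟨i, hi'.1, ?_⟩
          show X.testBit i :: ky Xs i = _
          rw [hi'.2]
    have hdis : Disjoint (List.cons true '' (ky Xs '' {i | (c &&& X).testBit i = true}))
        (List.cons false '' (ky Xs '' {i | (c &&& ((2 ^ 64 - 1) ^^^ X)).testBit i = true})) := by
      rw [Set.disjoint_left]
      rintro _ ⟨k, -, rfl⟩ ⟨k', -, h⟩
      injection h with h _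
      exact Bool.false_ne_true h
    rw [him, Set.ncard_union_eq hdis ((f1.image _).image _) ((f2.image _).image _),
      Set.ncard_image_of_injective _ (List.cons_injective),
      Set.ncard_image_of_injective _ (List.cons_injective)]
    exact Nat.add_le_add e1 e2

theorem cnt_pos (Xs : List ℕ) : ∀ c : ℕ, (∀ i, c.testBit i = true → i < 64) → c ≠ 0 →
    1 ≤ cnt c Xs := by
  induction Xs with
  | nil => intro c _ h; unfold cnt; rw [if_neg h]
  | cons X Xs ih =>
    intro c hc h
    obtain ⟨i, hi⟩ := Nat.exists_testBit_of_ne_zero h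
    unfold cnt
    have h1 : ∀ i, (c &&& X).testBit i = true → i < 64 := by
      intro i hi
      rw [Nat.testBit_and, Bool.and_eq_true] at hi
      exact hc i hi.1
    have h2 : ∀ i, (c &&& ((2 ^ 64 - 1) ^^^ X)).testBit i = true → i < 64 := by
      intro i hi
      rw [sub_full hc, Bool.and_eq_true] at hi
      exact hc i hi.1
    by_cases hX : X.testBit i = true
    · have : c &&& X ≠ 0 := by
        intro h0
        have : (c &&& X).testBit i = true := by rw [Nat.testBit_and, hi, hX]; rfl
        rw [h0, Nat.zero_testBit] at this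
        exact Bool.false_ne_true this
      have := ih _ h1 this
      omega
    · rw [Bool.not_eq_true] at hX
      have : c &&& ((2 ^ 64 - 1) ^^^ X) ≠ 0 := by
        intro h0
        have : (c &&& ((2 ^ 64 - 1) ^^^ X)).testBit i = true := by
          rw [sub_full hc, hi, hX]; rfl
        rw [h0, Nat.zero_testBit] at this
        exact Bool.false_ne_true this
      have := ih _ h2 this
      omega

/-- admissible lists of classes -/
def Adm (L : List ℕ) : Prop := ∀ c ∈ L, c ≠ 0 ∧ ∀ i, c.testBit i = true → i < 64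

theorem adm_spl {L : List ℕ} (h : Adm L) (X : ℕ) : Adm (spl L X) := by
  intro c hc
  unfold spl at hc
  rw [List.mem_filter, List.mem_flatMap] at hc
  obtain ⟨⟨d, hd, hcd⟩, h0⟩ := hc
  refine ⟨by simpa using h0, ?_⟩
  intro i hi
  simp only [List.mem_cons, List.not_mem_nil, or_false] at hcd
  rcases hcd with rfl | rfl
  · rw [Nat.testBit_and, Bool.and_eq_true] at hi
    exact (h d hd).2 i hi.1
  · rw [Nat.testBit_and, Bool.and_eq_true] at hi
    exact (h d hd).2 i hi.1

theorem cnt_zero (Xs : List ℕ) : cnt 0 Xs = 0 := by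
  induction Xs with
  | nil => rfl
  | cons X Xs ih => unfold cnt; rw [Nat.zero_and, Nat.zero_and, ih]

theorem sum_filter (l : List ℕ) (Xs : List ℕ) :
    ((l.filter (· != 0)).map fun c => cnt c Xs).sum = (l.map fun c => cnt c Xs).sum := by
  induction l with
  | nil => rfl
  | cons a l ih =>
    by_cases h : a = 0
    · subst h
      rw [List.filter_cons_of_neg (by simp), ih, List.map_cons, List.sum_cons, cnt_zero, zero_add]
    · rw [List.filter_cons_of_pos (by simpa using h), List.map_cons, List.map_cons,
        List.sum_cons, List.sum_cons, ih]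

theorem sum_spl (L : List ℕ) (X : ℕ) (Xs : List ℕ) :
    ((spl L X).map fun c => cnt c Xs).sum = (L.map fun c => cnt c (X :: Xs)).sum := by
  unfold spl
  rw [sum_filter]
  induction L with
  | nil => rfl
  | cons a L ih =>
    rw [List.flatMap_cons, List.map_append, List.sum_append, ih, List.map_cons, List.sum_cons]
    congr 1

theorem length_le_sum {L : List ℕ} (h : Adm L) (Xs : List ℕ) :
    L.length ≤ (L.map fun c => cnt c Xs).sum := by
  induction L with
  | nil => exact Nat.zero_le _
  | cons a L ih =>
    rw [List.length_cons, List.map_cons, List.sum_cons]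
    have h1 := cnt_pos Xs a (h a (by simp)).2 (h a (by simp)).1
    have h2 := ih fun c hc => h c (by simp [hc])
    omega

theorem chk_spec (os : List (List ℕ)) : ∀ L : List ℕ, Adm L → chk L os = true →
    ∀ Xs : List ℕ, List.Forall₂ (fun X o => X ∈ o) Xs os →
      28 ≤ (L.map fun c => cnt c Xs).sum := by
  induction os with
  | nil =>
    intro L hL h Xs _
    unfold chk at h
    exact (of_decide_eq_true h).trans (length_le_sum hL Xs)
  | cons o os ih =>
    intro L hL h Xs hX
    cases hX with
    | cons hx hxs =>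
      rename_i X Xs'
      unfold chk at h
      rw [Bool.or_eq_true, List.all_eq_true] at h
      rcases h with h | h
      · exact (of_decide_eq_true h).trans (length_le_sum hL _)
      · rw [← sum_spl]
        exact ih _ (adm_spl hL X) (h X hx) Xs' hxs

theorem chk_all : ∀ X7 ∈ MT 7, ∀ X1 ∈ MT 1, ch2 X7 X1 = true := by
  intro X7 h7 X1 h1
  simp only [MT, List.mem_cons, List.not_mem_nil, or_false] at h7 h1
  rcases h7 with rfl | rfl | rfl | rfl <;> rcases h1 with rfl | rfl | rfl | rfl
  · exact ch_00
  · exact ch_01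
  · exact ch_02
  · exact ch_03
  · exact ch_10
  · exact ch_11
  · exact ch_12
  · exact ch_13
  · exact ch_20
  · exact ch_21
  · exact ch_22
  · exact ch_23
  · exact ch_30
  · exact ch_31
  · exact ch_32
  · exact ch_33

/-- at least 28 keys for all choices -/
theorem keys_ge {X7 X1 X2 X3 X4 X5 X6 : ℕ} (h7 : X7 ∈ MT 7) (h1 : X1 ∈ MT 1) (h2 : X2 ∈ MT 2)
    (h3 : X3 ∈ MT 3) (h4 : X4 ∈ MT 4) (h5 : X5 ∈ MT 5) (h6 : X6 ∈ MT 6) :
    28 ≤ (ky [X1 ^^^ X7, X2 ^^^ X7, X3 ^^^ X7, X4 ^^^ X7, X5 ^^^ X7, X6 ^^^ X7] ''
      {i | i < 64}).ncard := by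
  have hfull : ∀ i, (2 ^ 64 - 1 : ℕ).testBit i = true → i < 64 := by
    intro i hi
    rw [full_testBit] at hi
    exact of_decide_eq_true hi
  have hc := chk_all X7 h7 X1 h1
  unfold ch2 at hc
  have hadm : Adm [18446744073709551615] := by
    intro c hc
    rw [List.mem_singleton] at hc
    subst hc
    refine ⟨by norm_num, ?_⟩
    rw [full_eq]
    exact hfull
  have hm : ∀ {o : List ℕ} {X : ℕ}, X ∈ o → X ^^^ X7 ∈ o.map (· ^^^ X7) := fun h =>
    List.mem_map.2 ⟨_, h, rfl⟩
  have := chk_spec _ _ (adm_spl hadm _) hc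
    [X2 ^^^ X7, X3 ^^^ X7, X4 ^^^ X7, X5 ^^^ X7, X6 ^^^ X7]
    (List.Forall₂.cons (hm h2) (List.Forall₂.cons (hm h3) (List.Forall₂.cons (hm h4)
      (List.Forall₂.cons (hm h5) (List.Forall₂.cons (hm h6) List.Forall₂.nil)))))
  rw [sum_spl] at this
  simp only [List.map_cons, List.map_nil, List.sum_cons, List.sum_nil, add_zero] at this
  rw [full_eq] at this
  refine this.trans ((cnt_le _ _ hfull).trans (le_of_eq ?_))
  congr 2
  ext i
  simp only [Set.mem_setOf_eq]
  rw [full_testBit, decide_eq_true_eq]

end Pool.Agent.K3h50.ETT
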