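import Pool.Agent.K3h50.ETT.Rule

set_option autoImplicit false

/-! Contradictions. -/

namespace Pool.Agent.K3h50.ETT

open Pool.Agent.W622.ETG Module Pool.Agent.TH188.ETP

section
variable {V : Type} [AddCommGroup V] [Module (ZMod 2) V] {e : V}

theorem val2 {A : Fam V} {x y z : V} (D : Dat A e x y z) {a b : ℕ} (a1 : 1 ≤ a) (a8 : a < 8)
    (b1 : 1 ≤ b) (b8 : b < 8) (w : ℕ) :
    (D.Ω a + D.Ω b) (PP x y z w) = pr a w • D.f a + pr b w • D.f b := by
  rw [LinearMap.add_apply, D.val a a1 a8, D.val b b1 b8]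
  have : pr 7 w • D.f 7 + pr a w • D.f a + (pr 7 w • D.f 7 + pr b w • D.f b) =
      (pr 7 w • D.f 7 + pr 7 w • D.f 7) + (pr a w • D.f a + pr b w • D.f b) := by abel
  rw [this, vadd, zero_add]

theorem rule2 [Finite V] {A : Fam V} (hA : EFam e A) {x y z : V} (D : Dat A e x y z)
    (hB : 256 * (BadW A x y z).ncard < Nat.card V) {v : V} (hs : SpD D v) {a b : ℕ}
    (a1 : 1 ≤ a) (a8 : a < 8) (b1 : 1 ≤ b) (b8 : b < 8)
    (h0 : ∀ w < 8, pr a w * D.f a v + pr b w * D.f b v = 0) : (D.Ω a + D.Ω b) v = 0 := by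
  refine rule hA D hB hs (A.add_mem (D.mem a) (D.mem b)) ?_ ?_
  · intro w _ u hu
    rw [val2 D a1 a8 b1 b8, LinearMap.add_apply, LinearMap.smul_apply, LinearMap.smul_apply,
      hu a a1 a8, hu b b1 b8, smul_zero, smul_zero, add_zero]
  · intro w hw
    rw [val2 D a1 a8 b1 b8]
    exact h0 w hw

theorem rule4 [Finite V] {A : Fam V} (hA : EFam e A) {x y z : V} (D : Dat A e x y z)
    (hB : 256 * (BadW A x y z).ncard < Nat.card V) {v : V} (hs : SpD D v) {a b c d : ℕ}
    (a1 : 1 ≤ a) (a8 : a < 8) (b1 : 1 ≤ b) (b8 : b < 8) (c1 : 1 ≤ c) (c8 : c < 8)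
    (d1 : 1 ≤ d) (d8 : d < 8)
    (h0 : ∀ w < 8, pr a w * D.f a v + pr b w * D.f b v + (pr c w * D.f c v + pr d w * D.f d v) = 0) :
    (D.Ω a + D.Ω b + (D.Ω c + D.Ω d)) v = 0 := by
  refine rule hA D hB hs (A.add_mem (A.add_mem (D.mem a) (D.mem b))
    (A.add_mem (D.mem c) (D.mem d))) ?_ ?_
  · intro w _ u hu
    rw [LinearMap.add_apply, val2 D a1 a8 b1 b8, val2 D c1 c8 d1 d8]
    simp only [LinearMap.add_apply, LinearMap.smul_apply,
      hu a a1 a8, hu b b1 b8, hu c c1 c8, hu d d1 d8, smul_zero, add_zero]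
  · intro w hw
    rw [LinearMap.add_apply, val2 D a1 a8 b1 b8, val2 D c1 c8 d1 d8]
    exact h0 w hw

/-- the main step -/
theorem r1 [Finite V] {A : Fam V} (hA : EFam e A) {x y z : V} (D : Dat A e x y z)
    (hB : 256 * (BadW A x y z).ncard < Nat.card V) {l m w : ℕ} (l1 : 1 ≤ l) (l8 : l < 8)
    (m1 : 1 ≤ m) (m8 : m < 8) (he : D.f l e = 0) (hl : pr l w = 1) (hm : pr m w = 0) {v : V}
    (hlv : D.f l v = 0) (hmv : D.f m v = 0) (hs : SpD D v) (hs' : SpD D (v + PP x y z w)) :
    False := by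
  have e1 : (D.Ω l + D.Ω m) v = 0 := rule2 hA D hB hs l1 l8 m1 m8 (by
    intro w _; rw [hlv, hmv, mul_zero, mul_zero, add_zero])
  have k1 : D.f l (v + PP x y z w) = 0 := by
    rw [map_add, hlv, D.eps l l1 l8, he, mul_zero, add_zero]
  have k2 : D.f m (v + PP x y z w) = 0 := by
    rw [map_add, hmv, D.eps m m1 m8, hm, zero_mul, add_zero]
  have e2 : (D.Ω l + D.Ω m) (v + PP x y z w) = 0 := rule2 hA D hB hs' l1 l8 m1 m8 (by
    intro w _; rw [k1, k2, mul_zero, mul_zero, add_zero])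
  rw [map_add, e1, zero_add, val2 D l1 l8 m1 m8, hl, hm, one_smul, zero_smul, add_zero] at e2
  have := D.tt l l1 l8
  rw [e2] at this
  exact zero_ne_one this

theorem rAll [Finite V] {A : Fam V} (hA : EFam e A) {x y z : V} (D : Dat A e x y z)
    (hB : 256 * (BadW A x y z).ncard < Nat.card V)
    (he : ∀ l, 1 ≤ l → l < 8 → D.f l e = 1) : False := by
  have hval : ∀ l, 1 ≤ l → l < 8 → ∀ w, D.f l (PP x y z w) = pr l w := by
    intro l h1 h8 w
    rw [D.eps l h1 h8, he l h1 h8, mul_one]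
  have hfin : ∀ v < 7, ∀ w < 7, ∃ l < 8, 1 ≤ l ∧ pr l (w + 1) = 1 ∧ pr l (v + 1) = 1 := by
    decide
  have hsp : ∀ v, 1 ≤ v → v < 8 → SpD D (PP x y z v) := by
    intro v v1 v8 w w1 w8
    obtain ⟨l, l8, l1, h1, h2⟩ := hfin (v - 1) (by omega) (w - 1) (by omega)
    rw [Nat.sub_add_cancel v1] at h2
    rw [Nat.sub_add_cancel w1] at h1
    exact ⟨l, l1, l8, h1, by rw [hval l l1 l8, h2]⟩
  have s1 : D.f 1 + D.f 3 + (D.f 5 + D.f 7) = 0 := by
    have h := rule4 hA D hB (hsp 1 (by norm_num) (by norm_num)) (a := 1) (b := 3) (c := 5) (d := 7)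
      (by norm_num) (by norm_num) (by norm_num) (by norm_num) (by norm_num) (by norm_num)
      (by norm_num) (by norm_num) (by
        rw [hval 1 (by norm_num) (by norm_num), hval 3 (by norm_num) (by norm_num),
          hval 5 (by norm_num) (by norm_num), hval 7 (by norm_num) (by norm_num)]
        decide)
    rw [LinearMap.add_apply, val2 D (by norm_num) (by norm_num) (by norm_num) (by norm_num),
      val2 D (by norm_num) (by norm_num) (by norm_num) (by norm_num),
      show pr 1 1 = 1 from rfl, show pr 3 1 = 1 from rfl, show pr 5 1 = 1 from rfl,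
      show pr 7 1 = 1 from rfl, one_smul, one_smul, one_smul, one_smul] at h
    exact h
  have s2 : D.f 2 + D.f 3 + (D.f 6 + D.f 7) = 0 := by
    have h := rule4 hA D hB (hsp 2 (by norm_num) (by norm_num)) (a := 2) (b := 3) (c := 6) (d := 7)
      (by norm_num) (by norm_num) (by norm_num) (by norm_num) (by norm_num) (by norm_num)
      (by norm_num) (by norm_num) (by
        rw [hval 2 (by norm_num) (by norm_num), hval 3 (by norm_num) (by norm_num),
          hval 6 (by norm_num) (by norm_num), hval 7 (by norm_num) (by norm_num)]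
        decide)
    rw [LinearMap.add_apply, val2 D (by norm_num) (by norm_num) (by norm_num) (by norm_num),
      val2 D (by norm_num) (by norm_num) (by norm_num) (by norm_num),
      show pr 2 2 = 1 from rfl, show pr 3 2 = 1 from rfl, show pr 6 2 = 1 from rfl,
      show pr 7 2 = 1 from rfl, one_smul, one_smul, one_smul, one_smul] at h
    exact h
  have s4 : D.f 4 + D.f 5 + (D.f 6 + D.f 7) = 0 := by
    have h := rule4 hA D hB (hsp 4 (by norm_num) (by norm_num)) (a := 4) (b := 5) (c := 6) (d := 7)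
      (by norm_num) (by norm_num) (by norm_num) (by norm_num) (by norm_num) (by norm_num)
      (by norm_num) (by norm_num) (by
        rw [hval 4 (by norm_num) (by norm_num), hval 5 (by norm_num) (by norm_num),
          hval 6 (by norm_num) (by norm_num), hval 7 (by norm_num) (by norm_num)]
        decide)
    rw [LinearMap.add_apply, val2 D (by norm_num) (by norm_num) (by norm_num) (by norm_num),
      val2 D (by norm_num) (by norm_num) (by norm_num) (by norm_num),
      show pr 4 4 = 1 from rfl, show pr 5 4 = 1 from rfl, show pr 6 4 = 1 from rfl,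
      show pr 7 4 = 1 from rfl, one_smul, one_smul, one_smul, one_smul] at h
    exact h
  have u1 := LinearMap.congr_fun s1 D.t1
  have u2 := LinearMap.congr_fun s2 D.t2
  have u3 := LinearMap.congr_fun s4 D.t3
  have t1 := D.tt 1 (by norm_num) (by norm_num)
  have t2 := D.tt 2 (by norm_num) (by norm_num)
  have t3 := D.tt 3 (by norm_num) (by norm_num)
  have t4 := D.tt 4 (by norm_num) (by norm_num)
  have t5 := D.tt 5 (by norm_num) (by norm_num)
  have t6 := D.tt 6 (by norm_num) (by norm_num)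
  have t7 := D.tt 7 (by norm_num) (by norm_num)
  unfold PP at t1 t2 t3 t4 t5 t6 t7
  rw [show bz 1 0 = 1 from rfl, show bz 1 1 = 0 from rfl, show bz 1 2 = 0 from rfl] at t1
  rw [show bz 2 0 = 0 from rfl, show bz 2 1 = 1 from rfl, show bz 2 2 = 0 from rfl] at t2
  rw [show bz 3 0 = 1 from rfl, show bz 3 1 = 1 from rfl, show bz 3 2 = 0 from rfl] at t3
  rw [show bz 4 0 = 0 from rfl, show bz 4 1 = 0 from rfl, show bz 4 2 = 1 from rfl] at t4
  rw [show bz 5 0 = 1 from rfl, show bz 5 1 = 0 from rfl, show bz 5 2 = 1 from rfl] at t5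
  rw [show bz 6 0 = 0 from rfl, show bz 6 1 = 1 from rfl, show bz 6 2 = 1 from rfl] at t6
  rw [show bz 7 0 = 1 from rfl, show bz 7 1 = 1 from rfl, show bz 7 2 = 1 from rfl] at t7
  simp only [one_smul, zero_smul, add_zero, zero_add, map_add] at t1 t2 t3 t4 t5 t6 t7
  simp only [LinearMap.add_apply, LinearMap.zero_apply] at u1 u2 u3
  have key : ∀ a b c d p q r s k l m n : ZMod 2, a + b + (c + d) = 0 → p + q + (r + s) = 0 →
      k + l + (m + n) = 0 → a = 1 → p = 1 → b + q = 1 → k = 1 → c + l = 1 → r + m = 1 →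
      d + s + n = 1 → False := by
    intro a b c d p q r s k l m n h1 h2 h3 h4 h5 h6 h7 h8 h9 h10
    have : (a + b + (c + d)) + (p + q + (r + s)) + (k + l + (m + n)) =
        a + p + (b + q) + k + (c + l) + (r + m) + (d + s + n) := by ring
    rw [h1, h2, h3, h4, h5, h6, h7, h8, h9, h10] at this
    revert this
    decide
  exact key _ _ _ _ _ _ _ _ _ _ _ _ u1 u2 u3 t1 t2 t3 t4 t5 t6 t7

theorem rLine [Finite V] {A : Fam V} (hA : EFam e A) {x y z : V} (D : Dat A e x y z)
    (hB : 256 * (BadW A x y z).ncard < Nat.card V) {k1 k2 k3 l m w w' : ℕ}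
    (k11 : 1 ≤ k1) (k18 : k1 < 8) (k21 : 1 ≤ k2) (k28 : k2 < 8) (k31 : 1 ≤ k3) (k38 : k3 < 8)
    (l1 : 1 ≤ l) (l8 : l < 8) (m1 : 1 ≤ m) (m8 : m < 8)
    (e1 : D.f k1 e = 1) (e2 : D.f k2 e = 1) (e3 : D.f k3 e = 1) (el : D.f l e = 0)
    (hlm : D.f m = D.f l) (hsp : ∀ v, D.f l v = 1 → SpD D v)
    (p1 : pr k1 w = 1) (p2 : pr k2 w = 1) (p3 : pr k3 w = 0)
    (q1 : pr k1 w' = 0) (q2 : pr k2 w' = 1) (q3 : pr k3 w' = 1)
    (pl : pr l w = 1) (pm : pr m w = 0)
    (s1 : ∀ v < 8, pr l v + pr m v = pr k1 v) (s2 : ∀ v < 8, pr k1 v = pr k2 v + pr k3 v) :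
    False := by
  have two : (1 : ZMod 2) + 1 = 0 := by decide
  have cc : ∀ a : ZMod 2, a + a = 0 := by decide
  set b1 : V := e + PP x y z w' with hb1
  set b2 : V := PP x y z w + b1 with hb2
  set b3 : V := e + PP x y z w with hb3
  have v11 : D.f k1 b1 = 1 := by rw [hb1, map_add, D.eps k1 k11 k18, e1, q1, zero_mul, add_zero]
  have v21 : D.f k2 b1 = 0 := by rw [hb1, map_add, D.eps k2 k21 k28, e2, q2, one_mul, two]
  have v31 : D.f k3 b1 = 0 := by rw [hb1, map_add, D.eps k3 k31 k38, e3, q3, one_mul, two]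
  have vl1 : D.f l b1 = 0 := by rw [hb1, map_add, D.eps l l1 l8, el, mul_zero, add_zero]
  have v12 : D.f k1 b2 = 0 := by
    rw [hb2, map_add, D.eps k1 k11 k18, e1, p1, v11, one_mul, two]
  have v22 : D.f k2 b2 = 1 := by
    rw [hb2, map_add, D.eps k2 k21 k28, e2, p2, v21, one_mul, add_zero]
  have v32 : D.f k3 b2 = 0 := by
    rw [hb2, map_add, D.eps k3 k31 k38, e3, p3, v31, zero_mul, add_zero]
  have vl2 : D.f l b2 = 0 := by rw [hb2, map_add, D.eps l l1 l8, el, vl1, mul_zero, add_zero]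
  have v13 : D.f k1 b3 = 0 := by rw [hb3, map_add, D.eps k1 k11 k18, e1, p1, one_mul, two]
  have v23 : D.f k2 b3 = 0 := by rw [hb3, map_add, D.eps k2 k21 k28, e2, p2, one_mul, two]
  have v33 : D.f k3 b3 = 1 := by rw [hb3, map_add, D.eps k3 k31 k38, e3, p3, zero_mul, add_zero]
  have vl3 : D.f l b3 = 0 := by rw [hb3, map_add, D.eps l l1 l8, el, mul_zero, add_zero]
  obtain ⟨u0, hu0⟩ : ∃ u0, D.f l u0 = 1 := ⟨_, D.tt l l1 l8⟩
  set u : V := u0 + D.f k1 u0 • b1 + D.f k2 u0 • b2 + D.f k3 u0 • b3 with hu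
  have w1 : D.f k1 u = 0 := by
    simp only [hu, map_add, map_smul, v11, v12, v13, smul_eq_mul, mul_one, mul_zero, add_zero]
    exact cc _
  have w2 : D.f k2 u = 0 := by
    simp only [hu, map_add, map_smul, v21, v22, v23, smul_eq_mul, mul_one, mul_zero, add_zero]
    exact cc _
  have w3 : D.f k3 u = 0 := by
    simp only [hu, map_add, map_smul, v31, v32, v33, smul_eq_mul, mul_one, mul_zero, add_zero]
    exact cc _
  have wl : D.f l u = 1 := by
    simp only [hu, map_add, map_smul, vl1, vl2, vl3, smul_eq_mul, mul_zero, add_zero, hu0]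
  clear_value u
  -- the values at `b₁`
  have a1 : (D.Ω k2 + D.Ω k3) b1 = 0 := by
    have h1 : (D.Ω k2 + D.Ω k3) u = 0 := rule2 hA D hB (hsp u wl) k21 k28 k31 k38 (by
      intro v _; rw [w2, w3, mul_zero, mul_zero, add_zero])
    have h2 : (D.Ω k2 + D.Ω k3) (u + b1) = 0 := rule2 hA D hB
      (hsp _ (by rw [map_add, wl, vl1, add_zero])) k21 k28 k31 k38 (by
      intro v _
      rw [map_add (D.f k2) u b1, map_add (D.f k3) u b1, w2, w3, v21, v31, add_zero, mul_zero,
        mul_zero, add_zero])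
    rwa [map_add, h1, zero_add] at h2
  have a2 : (D.Ω k2 + D.Ω k3 + (D.Ω l + D.Ω m)) b1 = 0 := by
    have h0 : ∀ v < 8, pr k2 v + pr k3 v + (pr l v + pr m v) = 0 := by
      intro v hv
      rw [s1 v hv, s2 v hv]
      exact cc _
    have g1 : (D.Ω k2 + D.Ω k3 + (D.Ω l + D.Ω m)) (u + b2 + b3) = 0 :=
      rule4 hA D hB (hsp _ (by rw [map_add, map_add, wl, vl2, vl3, add_zero, add_zero]))
        k21 k28 k31 k38 l1 l8 m1 m8 (by
        intro v hv
        rw [hlm]
        simp only [map_add, w2, w3, wl, v22, v32, vl2, v23, v33, vl3, add_zero, zero_add, mul_one]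
        exact h0 v hv)
    have g2 : (D.Ω k2 + D.Ω k3 + (D.Ω l + D.Ω m)) (u + b2 + b3 + b1) = 0 :=
      rule4 hA D hB (hsp _ (by
        rw [map_add, map_add, map_add, wl, vl2, vl3, vl1, add_zero, add_zero, add_zero]))
        k21 k28 k31 k38 l1 l8 m1 m8 (by
        intro v hv
        rw [hlm]
        simp only [map_add, w2, w3, wl, v22, v32, vl2, v23, v33, vl3, v21, v31, vl1, add_zero,
          zero_add, mul_one]
        exact h0 v hv)
    rwa [map_add _ (u + b2 + b3) b1, g1, zero_add] at g2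
  have a3 : (D.Ω l + D.Ω m) b1 = 0 := by
    rwa [LinearMap.add_apply, a1, zero_add] at a2
  -- the values at `b₂`
  have c1 : (D.Ω k1 + D.Ω k3) b2 = 0 := by
    have h1 : (D.Ω k1 + D.Ω k3) u = 0 := rule2 hA D hB (hsp u wl) k11 k18 k31 k38 (by
      intro v _; rw [w1, w3, mul_zero, mul_zero, add_zero])
    have h2 : (D.Ω k1 + D.Ω k3) (u + b2) = 0 := rule2 hA D hB
      (hsp _ (by rw [map_add, wl, vl2, add_zero])) k11 k18 k31 k38 (by
      intro v _
      rw [map_add (D.f k1) u b2, map_add (D.f k3) u b2, w1, w3, v12, v32, add_zero, mul_zero,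
        mul_zero, add_zero])
    rwa [map_add, h1, zero_add] at h2
  have c2 : (D.Ω k1 + D.Ω k3 + (D.Ω l + D.Ω m)) b2 = 0 := by
    have h0 : ∀ v < 8, pr k1 v + (pr l v + pr m v) = 0 := by
      intro v hv
      rw [s1 v hv]
      exact cc _
    have g1 : (D.Ω k1 + D.Ω k3 + (D.Ω l + D.Ω m)) (u + b1) = 0 :=
      rule4 hA D hB (hsp _ (by rw [map_add, wl, vl1, add_zero]))
        k11 k18 k31 k38 l1 l8 m1 m8 (by
        intro v hv
        rw [hlm]
        simp only [map_add, w1, w3, wl, v11, v31, vl1, add_zero, zero_add, mul_one, mul_zero]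
        exact h0 v hv)
    have g2 : (D.Ω k1 + D.Ω k3 + (D.Ω l + D.Ω m)) (u + b1 + b2) = 0 :=
      rule4 hA D hB (hsp _ (by rw [map_add, map_add, wl, vl1, vl2, add_zero, add_zero]))
        k11 k18 k31 k38 l1 l8 m1 m8 (by
        intro v hv
        rw [hlm]
        simp only [map_add, w1, w3, wl, v11, v31, vl1, v12, v32, vl2, add_zero, zero_add, mul_one,
          mul_zero]
        exact h0 v hv)
    rwa [map_add _ (u + b1) b2, g1, zero_add] at g2
  have c3 : (D.Ω l + D.Ω m) b2 = 0 := by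
    rwa [LinearMap.add_apply, c1, zero_add] at c2
  -- the contradiction
  have hw : PP x y z w = b1 + b2 := by
    rw [hb2]
    have : b1 + (PP x y z w + b1) = PP x y z w + (b1 + b1) := by abel
    rw [this, vadd, add_zero]
  have h := val2 D l1 l8 m1 m8 w
  rw [hw, map_add, a3, c3, pl, pm, one_smul, zero_smul, add_zero, add_zero] at h
  rw [← h] at hu0
  exact zero_ne_one hu0

end

end Pool.Agent.K3h50.ETT
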