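import Pool.Agent.K3h50.ETT.Data

set_option autoImplicit false

/-! Members killing elements of spanning type. -/

namespace Pool.Agent.K3h50.ETT

open Pool.Agent.W622.ETG Module Pool.Agent.TH188.ETP

section
variable {V : Type} [AddCommGroup V] [Module (ZMod 2) V] {e : V}

/-- the space of values at `v` -/
def vals (A : Fam V) (v : V) : DSub V := Submodule.map (LinearMap.applyₗ v) A

theorem mem_vals {A : Fam V} {v : V} {g : Dl V} : g ∈ vals A v ↔ ∃ ω ∈ A, ω v = g := Iff.rfl

/-- the space of values at `v` has dimension at most three -/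
def D3 (A : Fam V) (v : V) : Prop := finrank (ZMod 2) (vals A v) ≤ 3

theorem PP_one (x y z : V) : PP x y z 1 = x := by
  unfold PP
  rw [show bz 1 0 = 1 from rfl, show bz 1 1 = 0 from rfl, show bz 1 2 = 0 from rfl, one_smul,
    zero_smul, zero_smul, add_zero, add_zero]
theorem PP_two (x y z : V) : PP x y z 2 = y := by
  unfold PP
  rw [show bz 2 0 = 0 from rfl, show bz 2 1 = 1 from rfl, show bz 2 2 = 0 from rfl, one_smul,
    zero_smul, zero_smul, add_zero, zero_add]
theorem PP_four (x y z : V) : PP x y z 4 = z := by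
  unfold PP
  rw [show bz 4 0 = 0 from rfl, show bz 4 1 = 0 from rfl, show bz 4 2 = 1 from rfl, one_smul,
    zero_smul, zero_smul, zero_add, zero_add]

theorem zero_of_T [Finite V] {A : Fam V} (hA : EFam e A) {x y z v : V} (h3 : D3 A v)
    (hT : ∀ w, 1 ≤ w → w < 8 → ∃ ω ∈ A, ω (PP x y z w) v ≠ 0) {ω : Frm V} (hω : ω ∈ A)
    (hx : ω x v = 0) (hy : ω y v = 0) (hz : ω z v = 0) : ω v = 0 := by
  let r : vals A v →ₗ[ZMod 2] (Fin 3 → ZMod 2) :=
    LinearMap.pi ![(LinearMap.applyₗ x).comp (vals A v).subtype,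
      (LinearMap.applyₗ y).comp (vals A v).subtype, (LinearMap.applyₗ z).comp (vals A v).subtype]
  have hr : ∀ g : vals A v, r g = ![g.1 x, g.1 y, g.1 z] := by
    intro g
    ext i
    fin_cases i <;> rfl
  have hsurj : LinearMap.range r = ⊤ := by
    by_contra hcon
    obtain ⟨φ, hφ, hle⟩ := Submodule.exists_le_ker_of_lt_top _ (lt_top_iff_ne_top.2 hcon)
    set c0 := φ ![1, 0, 0] with hc0
    set c1 := φ ![0, 1, 0] with hc1
    set c2 := φ ![0, 0, 1] with hc2
    have hφv : ∀ a b c : ZMod 2, φ ![a, b, c] = c0 * a + c1 * b + c2 * c := by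
      intro a b c
      have h1 : (![a, b, c] : Fin 3 → ZMod 2) = a • ![1, 0, 0] + b • ![0, 1, 0] + c • ![0, 0, 1] := by
        ext i; fin_cases i <;> simp
      rw [h1, map_add, map_add, map_smul, map_smul, map_smul, ← hc0, ← hc1, ← hc2]
      simp only [smul_eq_mul]; ring
    have hcode : ∀ a b c : ZMod 2, ∃ w < 8, bz w 0 = a ∧ bz w 1 = b ∧ bz w 2 = c := by decide
    obtain ⟨w, hw8, w0, w1, w2⟩ := hcode c0 c1 c2
    have hw1 : 1 ≤ w := by
      rcases Nat.eq_zero_or_pos w with h | h
      · exfalso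
        subst h
        apply hφ
        have z0 : ∀ i, bz 0 i = 0 := fun i => by simp [bz]
        rw [z0] at w0 w1 w2
        refine LinearMap.ext fun a => ?_
        have ha : a = ![a 0, a 1, a 2] := by
          ext i; fin_cases i <;> rfl
        rw [ha, hφv, ← w0, ← w1, ← w2]
        simp
      · exact h
    obtain ⟨η, hη, hne⟩ := hT w hw1 hw8
    apply hne
    have h1 : r ⟨η v, mem_vals.2 ⟨η, hη, rfl⟩⟩ ∈ LinearMap.ker φ := hle ⟨_, rfl⟩
    rw [LinearMap.mem_ker, hr, hφv] at h1
    have s := (hA η hη).symm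
    simp only [PP, map_add, map_smul, LinearMap.add_apply, LinearMap.smul_apply, smul_eq_mul,
      w0, w1, w2]
    rw [s x v, s y v, s z v]
    exact h1
  have hfin : finrank (ZMod 2) (vals A v) = finrank (ZMod 2) (Fin 3 → ZMod 2) := by
    rw [finrank_fin_fun]
    have h1 := LinearMap.finrank_range_le r
    rw [hsurj, finrank_top, finrank_fin_fun] at h1
    exact le_antisymm h3 h1
  have hinj : Function.Injective r :=
    (LinearMap.injective_iff_surjective_of_finrank_eq_finrank hfin).2 (LinearMap.range_eq_top.1 hsurj)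
  have h0 : r ⟨ω v, mem_vals.2 ⟨ω, hω, rfl⟩⟩ = 0 := by
    rw [hr]
    have s := (hA ω hω).symm
    show ![ω v x, ω v y, ω v z] = 0
    rw [s v x, s v y, s v z, hx, hy, hz]
    ext i; fin_cases i <;> rfl
  have := hinj (h0.trans (map_zero r).symm)
  exact congrArg Subtype.val this

/-- the functionals which are one at `v` span -/
def SpD {A : Fam V} {x y z : V} (D : Dat A e x y z) (v : V) : Prop :=
  ∀ w, 1 ≤ w → w < 8 → ∃ l, 1 ≤ l ∧ l < 8 ∧ pr l w = 1 ∧ D.f l v = 1

theorem T_of_sp {A : Fam V} {x y z : V} (D : Dat A e x y z) {v : V} (hs : SpD D v) :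
    ∀ w, 1 ≤ w → w < 8 → ∃ ω ∈ A, ω (PP x y z w) v ≠ 0 := by
  intro w h1 h8
  by_contra hcon
  push Not at hcon
  obtain ⟨l, l1, l8, hl, hlv⟩ := hs w h1 h8
  have hex : ∀ w < 8, ∃ l < 8, 1 ≤ l ∧ pr l w = 0 := by decide
  obtain ⟨m, m8, m1, hm⟩ := hex w h8
  have h := hcon _ (A.add_mem (D.mem l) (D.mem m))
  rw [LinearMap.add_apply, D.val l l1 l8, D.val m m1 m8, hl, hm, one_smul, zero_smul, add_zero] at h
  simp only [LinearMap.add_apply, LinearMap.smul_apply, smul_eq_mul, hlv] at h
  have : ∀ a : ZMod 2, a + 1 + a ≠ 0 := by decide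
  exact this _ h

/-- the elements `v` with more than eight values for which the elements of `⟨x,y,z⟩` have
different values -/
def BadW (A : Fam V) (x y z : V) : Set V :=
  {v | ¬ D3 A v ∧ ∀ w, 1 ≤ w → w < 8 → ∃ ω ∈ A, ω (PP x y z w) v ≠ 0}

/-- the rule: a member with values in `⟨f_l⟩` on `⟨x,y,z⟩` whose values there vanish at `v` kills
`v` -/
theorem rule [Finite V] {A : Fam V} (hA : EFam e A) {x y z : V} (D : Dat A e x y z)
    (hB : 256 * (BadW A x y z).ncard < Nat.card V) {v : V} (hs : SpD D v) {ω : Frm V}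
    (hω : ω ∈ A)
    (hU : ∀ w < 8, ∀ u, (∀ l, 1 ≤ l → l < 8 → D.f l u = 0) → ω (PP x y z w) u = 0)
    (h0 : ∀ w < 8, ω (PP x y z w) v = 0) : ω v = 0 := by
  classical
  let g : V →+ (Fin 7 → ZMod 2) :=
    { toFun := fun u i => D.f (i.val + 1) u
      map_zero' := by ext i; simp
      map_add' := fun a b => by ext i; simp }
  have hg : ∀ u, u ∈ g.ker ↔ ∀ l, 1 ≤ l → l < 8 → D.f l u = 0 := by
    intro u
    rw [AddMonoidHom.mem_ker]
    constructor
    · intro h l h1 h8
      have := congrFun h ⟨l - 1, by omega⟩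
      show D.f l u = 0
      have e1 : D.f (l - 1 + 1) u = 0 := this
      rwa [Nat.sub_add_cancel h1] at e1
    · intro h
      ext i
      exact h (i.val + 1) (by omega) (by omega)
  have hcard : Nat.card V ≤ Nat.card g.ker * 128 := by
    rw [← AddSubgroup.card_mul_index g.ker, AddSubgroup.index_ker]
    refine Nat.mul_le_mul_left _ ?_
    have h1 : Nat.card g.range ≤ Nat.card (Fin 7 → ZMod 2) :=
      Nat.card_le_card_of_injective _ Subtype.val_injective
    refine h1.trans ?_
    simp
  set Bad : Set V := BadW A x y z with hBad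
  -- spanning is invariant under `ker g`
  have hinv : ∀ u ∈ g.ker, v + u ∉ Bad → ω (v + u) = 0 := by
    intro u hu hd
    have hu' := (hg u).1 hu
    have hs' : SpD D (v + u) := by
      intro w h1 h8
      obtain ⟨l, l1, l8, hl, hlv⟩ := hs w h1 h8
      exact ⟨l, l1, l8, hl, by rw [map_add, hlv, hu' l l1 l8, add_zero]⟩
    have hd' : D3 A (v + u) := by
      by_contra hc
      exact hd ⟨hc, T_of_sp D hs'⟩
    have hw : ∀ w < 8, ω (PP x y z w) (v + u) = 0 := fun w hw8 => by
      rw [map_add, h0 w hw8, hU w hw8 u hu', add_zero]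
    have k1 := hw 1 (by norm_num)
    have k2 := hw 2 (by norm_num)
    have k4 := hw 4 (by norm_num)
    rw [PP_one] at k1
    rw [PP_two] at k2
    rw [PP_four] at k4
    exact zero_of_T hA hd' (T_of_sp D hs') hω k1 k2 k4
  have hshift : ∀ a : V, {u | a + u ∈ Bad}.ncard ≤ Bad.ncard := by
    intro a
    have : {u | a + u ∈ Bad} = (fun b => b - a) '' Bad := by
      ext u
      simp only [Set.mem_setOf_eq, Set.mem_image]
      constructor
      · intro h; exact ⟨a + u, h, by abel⟩
      · rintro ⟨b, hb, rfl⟩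
        have : a + (b - a) = b := by abel
        rwa [this]
    rw [this]
    exact Set.ncard_image_le (Set.toFinite _)
  have hK : (g.ker : Set V).ncard = Nat.card g.ker := rfl
  obtain ⟨u, hu, hud⟩ : ∃ u ∈ g.ker, v + u ∉ Bad := by
    by_contra hcon
    push Not at hcon
    have h1 : (g.ker : Set V) ⊆ {u | v + u ∈ Bad} := fun u hu => hcon u hu
    have h2 := (Set.ncard_le_ncard h1 (Set.toFinite _)).trans (hshift v)
    rw [hK] at h2
    omega
  obtain ⟨u', hu', hu'd, hu'e⟩ : ∃ u' ∈ g.ker, v + u' ∉ Bad ∧ v + (u + u') ∉ Bad := by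
    by_contra hcon
    push Not at hcon
    have h1 : (g.ker : Set V) ⊆ {u' | v + u' ∈ Bad} ∪ {u' | (v + u) + u' ∈ Bad} := by
      intro u' hu'
      by_cases hd : v + u' ∈ Bad
      · exact Or.inl hd
      · right
        show (v + u) + u' ∈ Bad
        rw [add_assoc]
        exact hcon u' hu' hd
    have h2 := (Set.ncard_le_ncard h1 (Set.toFinite _)).trans (Set.ncard_union_le _ _)
    have h3 := hshift v
    have h4 := hshift (v + u)
    rw [hK] at h2
    omega
  have e1 := hinv u hu hud
  have e2 := hinv u' hu' hu'd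
  have e3 := hinv (u + u') (g.ker.add_mem hu hu') hu'e
  have hsum : v = (v + u) + (v + u') + (v + (u + u')) := by
    have : (v + u) + (v + u') + (v + (u + u')) = v + (v + v) + (u + u) + (u' + u') := by abel
    rw [this, vadd, vadd, vadd, add_zero, add_zero, add_zero]
  rw [hsum, map_add, map_add, e1, e2, e3, add_zero, add_zero]

end

end Pool.Agent.K3h50.ETT
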