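import Pool.Agent.K3h50.ETT.CntT
import Pool.Agent.K3h50.ETT.Rule

set_option autoImplicit false
set_option maxRecDepth 100000

/-! The number of pure tensors on a plane with a failure of linkage. -/

namespace Pool.Agent.K3h50.ETT

open Pool.Agent.W622.ETG Module Pool.Agent.TH188.ETP

section
variable {V : Type} [AddCommGroup V] [Module (ZMod 2) V] {e : V}

/-- the values of the pure tensors `p ⊗ v`, `p ∈ ⟨x,y,z⟩` -/
def TW (A : Fam V) (x y z : V) : Set (A → ZMod 2) :=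
  {k | ∃ w < 8, ∃ v : V, k = fun ω => ω.1 (PP x y z w) v}

theorem TW_finite [Finite V] (A : Fam V) (x y z : V) : (TW A x y z).Finite := by
  refine (Set.finite_range (fun p : Fin 8 × V => fun ω : A => ω.1 (PP x y z p.1.val) p.2)).subset ?_
  rintro k ⟨w, hw, v, rfl⟩
  exact ⟨(⟨w, hw⟩, v), rfl⟩

theorem mask_spec : ∀ l < 8, 1 ≤ l → ∀ c < 8, pr l c = 1 → ∃ X ∈ MT l, ∀ i < 64,
    X.testBit i = decide (pr l (i / 8) * pr (i % 8) c = 1) := by decide +kernel

theorem code_spec : ∀ a b c : ZMod 2, ∃ w < 8, bz w 0 = a ∧ bz w 1 = b ∧ bz w 2 = c := by decide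

theorem exists_code {A : Fam V} {x y z : V} (D : Dat A e x y z) (l : ℕ) (h1 : 1 ≤ l)
    (h8 : l < 8) : ∃ X ∈ MT l, ∀ i < 64,
      X.testBit i = decide (pr l (i / 8) * D.f l (PP D.t1 D.t2 D.t3 (i % 8)) = 1) := by
  obtain ⟨c, hc, c0, c1, c2⟩ := code_spec (D.f l D.t1) (D.f l D.t2) (D.f l D.t3)
  have hf : ∀ m, D.f l (PP D.t1 D.t2 D.t3 m) = pr m c := by
    intro m
    simp only [PP, map_add, map_smul, smul_eq_mul, pr, c0, c1, c2]
  have hp : pr l c = 1 := by rw [← hf]; exact D.tt l h1 h8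
  obtain ⟨X, hX, h⟩ := mask_spec l h8 h1 c hc hp
  refine ⟨X, hX, fun i hi => ?_⟩
  rw [h i hi, hf]

/-- a failure of plane linkage needs at least 28 pure tensors -/
theorem card_TW [Finite V] {A : Fam V} {x y z : V} (D : Dat A e x y z) :
    28 ≤ (TW A x y z).ncard := by
  obtain ⟨X1, m1, e1⟩ := exists_code D 1 (by norm_num) (by norm_num)
  obtain ⟨X2, m2, e2⟩ := exists_code D 2 (by norm_num) (by norm_num)
  obtain ⟨X3, m3, e3⟩ := exists_code D 3 (by norm_num) (by norm_num)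
  obtain ⟨X4, m4, e4⟩ := exists_code D 4 (by norm_num) (by norm_num)
  obtain ⟨X5, m5, e5⟩ := exists_code D 5 (by norm_num) (by norm_num)
  obtain ⟨X6, m6, e6⟩ := exists_code D 6 (by norm_num) (by norm_num)
  obtain ⟨X7, m7, e7⟩ := exists_code D 7 (by norm_num) (by norm_num)
  refine (keys_ge m7 m1 m2 m3 m4 m5 m6).trans ?_
  let E : (A → ZMod 2) → List Bool := fun k =>
    [decide (k ⟨D.Ω 1, D.mem 1⟩ = 1), decide (k ⟨D.Ω 2, D.mem 2⟩ = 1),
      decide (k ⟨D.Ω 3, D.mem 3⟩ = 1), decide (k ⟨D.Ω 4, D.mem 4⟩ = 1),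
      decide (k ⟨D.Ω 5, D.mem 5⟩ = 1), decide (k ⟨D.Ω 6, D.mem 6⟩ = 1)]
  have hsub : ky [X1 ^^^ X7, X2 ^^^ X7, X3 ^^^ X7, X4 ^^^ X7, X5 ^^^ X7, X6 ^^^ X7] ''
      {i | i < 64} ⊆ E '' TW A x y z := by
    rintro _ ⟨i, hi, rfl⟩
    have hi' : i < 64 := hi
    refine ⟨fun ω => ω.1 (PP x y z (i / 8)) (PP D.t1 D.t2 D.t3 (i % 8)),
      ⟨i / 8, by omega, _, rfl⟩, ?_⟩
    have key : ∀ a b : ZMod 2, decide (a + b = 1) = xor (decide (b = 1)) (decide (a = 1)) := by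
      decide
    have hv : ∀ l, 1 ≤ l → l < 8 →
        decide (D.Ω l (PP x y z (i / 8)) (PP D.t1 D.t2 D.t3 (i % 8)) = 1) =
          xor (decide (pr l (i / 8) * D.f l (PP D.t1 D.t2 D.t3 (i % 8)) = 1))
            (decide (pr 7 (i / 8) * D.f 7 (PP D.t1 D.t2 D.t3 (i % 8)) = 1)) := by
      intro l h1 h8
      rw [D.val l h1 h8, ← key]
      rfl
    show [decide (D.Ω 1 _ _ = 1), decide (D.Ω 2 _ _ = 1), decide (D.Ω 3 _ _ = 1),
      decide (D.Ω 4 _ _ = 1), decide (D.Ω 5 _ _ = 1), decide (D.Ω 6 _ _ = 1)] = _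
    rw [hv 1 (by norm_num) (by norm_num), hv 2 (by norm_num) (by norm_num),
      hv 3 (by norm_num) (by norm_num), hv 4 (by norm_num) (by norm_num),
      hv 5 (by norm_num) (by norm_num), hv 6 (by norm_num) (by norm_num),
      ← e1 i hi', ← e2 i hi', ← e3 i hi', ← e4 i hi', ← e5 i hi', ← e6 i hi', ← e7 i hi']
    simp only [ky, List.map_cons, List.map_nil, Nat.testBit_xor]
  exact (Set.ncard_le_ncard hsub ((TW_finite A x y z).image _)).trans
    (Set.ncard_image_le (TW_finite A x y z))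

/-- plane linkage if there are at most 27 pure tensors -/
theorem plane_of_TW [Finite V] {A : Fam V} (hA : EFam e A) (hL : Linked A) (x y z : V)
    (h : (TW A x y z).ncard ≤ 27) : PlaneAt A x y z := by
  by_contra hP
  obtain ⟨D⟩ := exists_dat hA hL hP
  have := card_TW D
  omega

end

end Pool.Agent.K3h50.ETT
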