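import Pool.Agent.TH188.ET.PlaneH

set_option autoImplicit false

/-! The data attached to a failure of plane linkage. -/

namespace Pool.Agent.K3h50.ETT

open Pool.Agent.W622.ETG Module Pool.Agent.TH188.ETP

section
variable {V : Type} [AddCommGroup V] [Module (ZMod 2) V] {e : V}

/-- binary digits -/
def bz (n i : ℕ) : ZMod 2 := if n.testBit i then 1 else 0

/-- the points of `⟨x,y,z⟩` -/
def PP (x y z : V) (w : ℕ) : V := bz w 0 • x + bz w 1 • y + bz w 2 • z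

/-- the pairing -/
def pr (l w : ℕ) : ZMod 2 := bz l 0 * bz w 0 + bz l 1 * bz w 1 + bz l 2 * bz w 2

/-- the data attached to a failure of plane linkage at `x, y, z` -/
structure Dat (A : Fam V) (e x y z : V) where
  /-- the functionals -/
  f : ℕ → Dl V
  /-- the forms -/
  Ω : ℕ → Frm V
  /-- the first vector -/
  t1 : V
  /-- the second vector -/
  t2 : V
  /-- the third vector -/
  t3 : V
  mem : ∀ l, Ω l ∈ A
  val : ∀ l, 1 ≤ l → l < 8 → ∀ w, Ω l (PP x y z w) = pr 7 w • f 7 + pr l w • f l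
  eps : ∀ l, 1 ≤ l → l < 8 → ∀ w, f l (PP x y z w) = pr l w * f l e
  tt : ∀ l, 1 ≤ l → l < 8 → f l (PP t1 t2 t3 l) = 1

theorem key_eps : ∀ b0 b1 b2 a0 a1 a2 g : ZMod 2, (b0 = 1 ∨ b1 = 1 ∨ b2 = 1) →
    b0 * a0 = b0 * g → b1 * a1 = b1 * g → b2 * a2 = b2 * g → b0 * a1 = b1 * a0 →
    b0 * a2 = b2 * a0 → b1 * a2 = b2 * a1 → a0 = b0 * g ∧ a1 = b1 * g ∧ a2 = b2 * g := by
  decide

theorem exists_dat [Finite V] {A : Fam V} (hA : EFam e A) (hL : Linked A) {x y z : V}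
    (hP : ¬ PlaneAt A x y z) : Nonempty (Dat A e x y z) := by
  unfold PlaneAt at hP
  push Not at hP
  obtain ⟨f, fx, fy, fz, fw, hno⟩ := hP
  -- the functional
  let ev : Frm V →ₗ[ZMod 2] Dl V × Dl V × Dl V :=
    (LinearMap.applyₗ x).prod ((LinearMap.applyₗ y).prod (LinearMap.applyₗ z))
  have hev : ∀ ω, ev ω = (ω x, ω y, ω z) := fun _ => rfl
  have hnot : ((f, f, f) : Dl V × Dl V × Dl V) ∉ Submodule.map ev A := by
    rintro ⟨ω, hω, h⟩
    rw [hev] at h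
    simp only [Prod.mk.injEq] at h
    exact hno ω hω h.1 h.2.1 h.2.2
  obtain ⟨Φ, hΦ1, hΦ2⟩ := Submodule.exists_le_ker_of_notMem hnot
  have refl : ∀ φ : Dl V →ₗ[ZMod 2] ZMod 2, ∃ t : V, ∀ g : Dl V, φ g = g t := by
    intro φ
    refine ⟨(Module.evalEquiv (ZMod 2) V).symm φ, fun g => ?_⟩
    exact (Module.apply_evalEquiv_symm_apply (ZMod 2) V g φ).symm
  obtain ⟨t1, ht1⟩ := refl (Φ.comp (LinearMap.inl _ _ _))
  obtain ⟨t2, ht2⟩ := refl (Φ.comp ((LinearMap.inr _ _ _).comp (LinearMap.inl _ _ _)))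
  obtain ⟨t3, ht3⟩ := refl (Φ.comp ((LinearMap.inr _ _ _).comp (LinearMap.inr _ _ _)))
  have hΦ : ∀ u v w : Dl V, Φ (u, v, w) = u t1 + v t2 + w t3 := by
    intro u v w
    rw [← ht1, ← ht2, ← ht3]
    simp only [LinearMap.comp_apply, LinearMap.inl_apply, LinearMap.inr_apply]
    rw [← map_add, ← map_add]
    simp
  have hτA : ∀ ω ∈ A, ω x t1 + ω y t2 + ω z t3 = 0 := by
    intro ω hω
    rw [← hΦ]
    exact hΦ2 ⟨ω, hω, rfl⟩
  have hτf : f t1 + f t2 + f t3 = 1 := by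
    rw [← hΦ]
    exact z_ne hΦ1
  -- the forms
  obtain ⟨ω1, m1, p1, q1⟩ := pairL hL y z f fy fz
  obtain ⟨ω2, m2, p2, q2⟩ := pairL hL x z f fx fz
  obtain ⟨ω4, m4, p4, q4⟩ := pairL hL x y f fx fy
  obtain ⟨ω3, m3, p3, q3⟩ := pairL hL z (x + y + z) f fz fw
  obtain ⟨ω5, m5, p5, q5⟩ := pairL hL y (x + y + z) f fy fw
  obtain ⟨ω6, m6, p6, q6⟩ := pairL hL x (x + y + z) f fx fw
  have r3 : ω3 y = ω3 x := by
    rw [map_add, map_add, p3] at q3
    have h1 : ω3 x + ω3 y = 0 := by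
      have h2 : ω3 x + ω3 y + f + f = f + f := by rw [q3]
      rwa [vadd, add_assoc, vadd, add_zero] at h2
    exact (Pool.Agent.W622.ETC.add_eq_zero'.1 h1).symm
  have r5 : ω5 z = ω5 x := by
    rw [map_add, map_add, p5] at q5
    have h1 : ω5 x + ω5 z = 0 := by
      have h2 : ω5 x + f + ω5 z + f = f + f := by rw [q5]
      have h3 : ω5 x + f + ω5 z + f = ω5 x + ω5 z + (f + f) := by abel
      rwa [h3, vadd, add_zero] at h2
    exact (Pool.Agent.W622.ETC.add_eq_zero'.1 h1).symm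
  have r6 : ω6 z = ω6 y := by
    rw [map_add, map_add, p6] at q6
    have h1 : ω6 y + ω6 z = 0 := by
      have h2 : f + ω6 y + ω6 z + f = f + f := by rw [q6]
      have h3 : f + ω6 y + ω6 z + f = ω6 y + ω6 z + (f + f) := by abel
      rwa [h3, vadd, add_zero] at h2
    exact (Pool.Agent.W622.ETC.add_eq_zero'.1 h1).symm
  let F : ℕ → Dl V := fun l => if l = 1 then f + ω1 x else if l = 2 then f + ω2 y else
    if l = 3 then f + ω3 x else if l = 4 then f + ω4 z else if l = 5 then f + ω5 x else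
    if l = 6 then f + ω6 y else f
  let Ω : ℕ → Frm V := fun l => if l = 1 then ω1 else if l = 2 then ω2 else if l = 3 then ω3 else
    if l = 4 then ω4 else if l = 5 then ω5 else if l = 6 then ω6 else 0
  have hF7 : F 7 = f := rfl
  have hmem : ∀ l, Ω l ∈ A := by
    intro l
    simp only [Ω]
    split_ifs <;> first | assumption | exact A.zero_mem
  have c : ∀ u : Dl V, f + (f + u) = u := fun u => by rw [← add_assoc, vadd, zero_add]
  have b10 : bz 1 0 = 1 := rfl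
  have b11 : bz 1 1 = 0 := rfl
  have b12 : bz 1 2 = 0 := rfl
  have b20 : bz 2 0 = 0 := rfl
  have b21 : bz 2 1 = 1 := rfl
  have b22 : bz 2 2 = 0 := rfl
  have b30 : bz 3 0 = 1 := rfl
  have b31 : bz 3 1 = 1 := rfl
  have b32 : bz 3 2 = 0 := rfl
  have b40 : bz 4 0 = 0 := rfl
  have b41 : bz 4 1 = 0 := rfl
  have b42 : bz 4 2 = 1 := rfl
  have b50 : bz 5 0 = 1 := rfl
  have b51 : bz 5 1 = 0 := rfl
  have b52 : bz 5 2 = 1 := rfl
  have b60 : bz 6 0 = 0 := rfl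
  have b61 : bz 6 1 = 1 := rfl
  have b62 : bz 6 2 = 1 := rfl
  have b70 : bz 7 0 = 1 := rfl
  have b71 : bz 7 1 = 1 := rfl
  have b72 : bz 7 2 = 1 := rfl
  have hv : ∀ l, 1 ≤ l → l < 8 → Ω l x = f + bz l 0 • F l ∧ Ω l y = f + bz l 1 • F l ∧
      Ω l z = f + bz l 2 • F l := by
    intro l h1 h2
    interval_cases l
    · show ω1 x = f + bz 1 0 • (f + ω1 x) ∧ ω1 y = f + bz 1 1 • (f + ω1 x) ∧
        ω1 z = f + bz 1 2 • (f + ω1 x)
      rw [b10, b11, b12, one_smul, zero_smul, add_zero, c]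
      exact ⟨rfl, p1, q1⟩
    · show ω2 x = f + bz 2 0 • (f + ω2 y) ∧ ω2 y = f + bz 2 1 • (f + ω2 y) ∧
        ω2 z = f + bz 2 2 • (f + ω2 y)
      rw [b20, b21, b22, one_smul, zero_smul, add_zero, c]
      exact ⟨p2, rfl, q2⟩
    · show ω3 x = f + bz 3 0 • (f + ω3 x) ∧ ω3 y = f + bz 3 1 • (f + ω3 x) ∧
        ω3 z = f + bz 3 2 • (f + ω3 x)
      rw [b30, b31, b32, one_smul, zero_smul, add_zero, c]
      exact ⟨rfl, r3, p3⟩
    · show ω4 x = f + bz 4 0 • (f + ω4 z) ∧ ω4 y = f + bz 4 1 • (f + ω4 z) ∧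
        ω4 z = f + bz 4 2 • (f + ω4 z)
      rw [b40, b41, b42, one_smul, zero_smul, add_zero, c]
      exact ⟨p4, q4, rfl⟩
    · show ω5 x = f + bz 5 0 • (f + ω5 x) ∧ ω5 y = f + bz 5 1 • (f + ω5 x) ∧
        ω5 z = f + bz 5 2 • (f + ω5 x)
      rw [b50, b51, b52, one_smul, zero_smul, add_zero, c]
      exact ⟨rfl, p5, r5⟩
    · show ω6 x = f + bz 6 0 • (f + ω6 y) ∧ ω6 y = f + bz 6 1 • (f + ω6 y) ∧
        ω6 z = f + bz 6 2 • (f + ω6 y)
      rw [b60, b61, b62, one_smul, zero_smul, add_zero, c]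
      exact ⟨p6, rfl, r6⟩
    · show (0 : Frm V) x = f + bz 7 0 • f ∧ (0 : Frm V) y = f + bz 7 1 • f ∧
        (0 : Frm V) z = f + bz 7 2 • f
      rw [b70, b71, b72, one_smul, vadd]
      exact ⟨rfl, rfl, rfl⟩
  -- the values of `f` and of the `F l` on `⟨x,y,z⟩`
  have sqx : f x = f e := by
    have := (hA ω2 m2).sq x
    rwa [p2] at this
  have sqy : f y = f e := by
    have := (hA ω1 m1).sq y
    rwa [p1] at this
  have sqz : f z = f e := by
    have := (hA ω1 m1).sq z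
    rwa [q1] at this
  have hne : ∀ l, 1 ≤ l → l < 8 → (bz l 0 = 1 ∨ bz l 1 = 1 ∨ bz l 2 = 1) := by
    intro l h1 h2
    interval_cases l <;> decide
  have hFv : ∀ l, 1 ≤ l → l < 8 → F l x = bz l 0 * F l e ∧ F l y = bz l 1 * F l e ∧
      F l z = bz l 2 * F l e := by
    intro l h1 h2
    by_cases h7 : l = 7
    · subst h7
      rw [hF7, b70, b71, b72, one_mul]
      exact ⟨sqx, sqy, sqz⟩
    · obtain ⟨vx, vy, vz⟩ := hv l h1 h2
      have hm := hA _ (hmem l)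
      have s1 := hm.sq x
      have s2 := hm.sq y
      have s3 := hm.sq z
      have s4 := hm.symm x y
      have s5 := hm.symm x z
      have s6 := hm.symm y z
      rw [vx] at s1
      rw [vy] at s2
      rw [vz] at s3
      rw [vx, vy] at s4
      rw [vx, vz] at s5
      rw [vy, vz] at s6
      simp only [LinearMap.add_apply, LinearMap.smul_apply, smul_eq_mul, sqx, sqy, sqz,
        add_right_inj] at s1 s2 s3 s4 s5 s6
      exact key_eps _ _ _ _ _ _ _ (hne l h1 h2) s1 s2 s3 s4 s5 s6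
  refine ⟨⟨F, Ω, t1, t2, t3, hmem, ?_, ?_, ?_⟩⟩
  · intro l h1 h2 w
    obtain ⟨vx, vy, vz⟩ := hv l h1 h2
    rw [hF7]
    simp only [PP, map_add, map_smul, vx, vy, vz, pr, b70, b71, b72, smul_add, add_smul, smul_smul]
    rw [mul_comm (bz w 0) (bz l 0), mul_comm (bz w 1) (bz l 1), mul_comm (bz w 2) (bz l 2)]
    simp only [one_mul]
    abel
  · intro l h1 h2 w
    obtain ⟨vx, vy, vz⟩ := hFv l h1 h2
    simp only [PP, map_add, map_smul, vx, vy, vz, pr, smul_eq_mul]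
    ring
  · intro l h1 h2
    obtain ⟨vx, vy, vz⟩ := hv l h1 h2
    have h := hτA _ (hmem l)
    rw [vx, vy, vz] at h
    simp only [LinearMap.add_apply, LinearMap.smul_apply, smul_eq_mul] at h
    have h3 : F l (PP t1 t2 t3 l) = bz l 0 * F l t1 + bz l 1 * F l t2 + bz l 2 * F l t3 := by
      simp only [PP, map_add, map_smul, smul_eq_mul]
    rw [h3]
    have h4 : (f t1 + f t2 + f t3) + (bz l 0 * F l t1 + bz l 1 * F l t2 + bz l 2 * F l t3) = 0 := by
      rw [← h]; ring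
    rw [hτf] at h4
    have : ∀ a : ZMod 2, 1 + a = 0 → a = 1 := by decide
    exact this _ h4

end

end Pool.Agent.K3h50.ETT
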