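import Pool.Agent.K3h50.ETT.Words
import Pool.Agent.K3h50.ETT.CountW
import Pool.Agent.TH188.ET.GrpVal

set_option autoImplicit false

/-! From quaternionic structures to families of forms, and hereditary linkage. -/

namespace Pool.Agent.K3h50.ETT

open Pool.Agent.H315R3.ETC Pool.Agent.W622.ETG Module Pool.Agent.TH188.ETP
open Pool.Agent.TH188.ET (exists_char exists_factor)
open Pool.Agent.TH188.ET8 (QD_eq)

universe v

section
variable {V : Type} [AddCommGroup V] [Module (ZMod 2) V] {e : V}

theorem linked_list_of [Finite V] (C : Fam V → Prop) (hmono : ∀ A B : Fam V, B ≤ A → C A → C B)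
    (hC : ∀ A : Fam V, EFam e A → Linked A → C A → ∀ x y z : V, PlaneAt A x y z) (l : List V) :
    ∀ A : Fam V, EFam e A → Linked A → C A →
      Linked (l.foldl (fun B u => res B (ann u)) A) := by
  induction l with
  | nil => intro A _ h _; exact h
  | cons u l ih =>
    intro A hA hL hS
    exact ih _ (hA.res _) (linked_ann hA hL (hC A hA hL hS) u) (hmono _ _ (res_le A _) hS)

/-- a monotone condition implying plane linkage implies hereditary linkage -/
theorem hered_of [Finite V] (C : Fam V → Prop) (hmono : ∀ A B : Fam V, B ≤ A → C A → C B)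
    (hC : ∀ A : Fam V, EFam e A → Linked A → C A → ∀ x y z : V, PlaneAt A x y z) {A : Fam V}
    (hA : EFam e A) (hL : Linked A) (hCA : C A) : Hered A := by
  classical
  intro X
  have : Fintype V := Fintype.ofFinite V
  let l : List V := (Finset.univ.filter (fun b : V => ∀ g ∈ X, g b = 0)).toList
  have hl : ∀ b, b ∈ l ↔ ∀ g ∈ X, g b = 0 := by
    intro b
    simp [l]
  have h1 : l.foldl (fun B u => res B (ann u)) A = res A X := by
    ext ω
    rw [mem_list l A hA ω]
    constructor
    · rintro ⟨h1, h2⟩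
      refine ⟨h1, fun y => mem_of_coann fun b hb => ?_⟩
      rw [(hA ω h1).symm, h2 b ((hl b).2 hb)]
      rfl
    · rintro ⟨h1, h2⟩
      refine ⟨h1, fun u hu => ?_⟩
      ext y
      rw [(hA ω h1).symm]
      exact (hl u).1 hu _ (h2 y)
  rw [← h1]
  exact linked_list_of C hmono hC l A hA hL hCA

theorem vals_mono {A B : Fam V} (h : B ≤ A) (v : V) : vals B v ≤ vals A v :=
  Submodule.map_mono h

/-- the smallness condition at `x, y, z` -/
def Sm (A : Fam V) (x y z : V) : Prop :=
  (TW A x y z).ncard ≤ 27 ∨ 256 * (BadW A x y z).ncard < Nat.card V ∨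
    (R2 A x ∧ R2 A y ∧ R2 A z ∧ R2 A (x + y + z))

theorem Sm.mono [Finite V] {A B : Fam V} (h : B ≤ A) {x y z : V} (hA : Sm A x y z) :
    Sm B x y z := by
  rcases hA with hA | hA | hA
  · left
    refine le_trans ?_ hA
    have : TW B x y z ⊆ (fun (k : A → ZMod 2) (ω : B) => k ⟨ω.1, h ω.2⟩) '' TW A x y z := by
      rintro k ⟨w, hw, v, rfl⟩
      exact ⟨_, ⟨w, hw, v, rfl⟩, rfl⟩
    exact (Set.ncard_le_ncard this ((TW_finite A x y z).image _)).trans
      (Set.ncard_image_le (TW_finite A x y z))
  · right; left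
    refine lt_of_le_of_lt (Nat.mul_le_mul_left _ (Set.ncard_le_ncard ?_ (Set.toFinite _))) hA
    rintro v ⟨h1, h2⟩
    refine ⟨fun h' => h1 ((Submodule.finrank_mono (vals_mono h v)).trans h'), fun w w1 w8 => ?_⟩
    obtain ⟨ω, hω, hne⟩ := h2 w w1 w8
    exact ⟨ω, h hω, hne⟩
  · right; right
    have hR : ∀ p, R2 A p → R2 B p := fun p hp ω₁ h1 ω₂ h2 ω₃ h3 =>
      hp ω₁ (h h1) ω₂ (h h2) ω₃ (h h3)
    exact ⟨hR _ hA.1, hR _ hA.2.1, hR _ hA.2.2.1, hR _ hA.2.2.2⟩

theorem hered_of_Sm [Finite V] {A : Fam V} (hA : EFam e A) (hL : Linked A)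
    (hS : ∀ x y z : V, Sm A x y z) : Hered A := by
  refine hered_of (fun A => ∀ x y z : V, Sm A x y z)
    (fun A B h hA x y z => (hA x y z).mono h) ?_ hA hL hS
  intro A hA hL hS x y z
  rcases hS x y z with h | h | h
  · exact plane_of_TW hA hL x y z h
  · exact plane_of_D3 hA hL x y z h
  · exact plane_of_R2 hL h.1 h.2.1 h.2.2.1 h.2.2.2

/-- the dimension of the value space and the common kernel of the values -/
theorem two_pow_vals [Finite V] (A : Fam V) (p : V) :
    2 ^ finrank (ZMod 2) (vals A p) * Nat.card {b : V // ∀ ω ∈ A, ω p b = 0} = Nat.card V := by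
  let g : V →ₗ[ZMod 2] (vals A p →ₗ[ZMod 2] ZMod 2) :=
    { toFun := fun b => (LinearMap.applyₗ b).comp (vals A p).subtype
      map_add' := fun a b => by ext f; simp
      map_smul' := fun c b => by ext f; simp }
  have hg : ∀ b f, g b f = f.1 b := fun _ _ => rfl
  have hsurj : LinearMap.range g = ⊤ := by
    rw [eq_top_iff]
    rintro φ -
    obtain ⟨a, ha⟩ := exists_val (vals A p) φ
    exact ⟨a, LinearMap.ext fun f => ha f⟩
  have hk : Nat.card (LinearMap.ker g) = Nat.card {b : V // ∀ ω ∈ A, ω p b = 0} := by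
    refine Nat.card_congr (Equiv.subtypeEquivRight fun b => ?_)
    rw [LinearMap.mem_ker]
    constructor
    · intro h ω hω
      exact LinearMap.congr_fun h ⟨ω p, mem_vals.2 ⟨ω, hω, rfl⟩⟩
    · intro h
      ext ⟨f, hf⟩
      obtain ⟨ω, hω, rfl⟩ := mem_vals.1 hf
      exact h ω hω
  have h1 := g.toAddMonoidHom.ker.card_mul_index
  rw [AddSubgroup.index_ker] at h1
  have h2 : Nat.card g.toAddMonoidHom.range = 2 ^ finrank (ZMod 2) (vals A p) := by
    have e1 : Nat.card g.toAddMonoidHom.range = Nat.card (LinearMap.range g) := rfl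
    rw [e1, hsurj]
    have e2 : Nat.card (⊤ : Submodule (ZMod 2) (vals A p →ₗ[ZMod 2] ZMod 2)) =
        Nat.card (vals A p →ₗ[ZMod 2] ZMod 2) := Nat.card_congr (Equiv.Set.univ _)
    rw [e2, Module.natCard_eq_pow_finrank (K := ZMod 2), Nat.card_zmod, Subspace.dual_finrank_eq]
  have h3 : Nat.card g.toAddMonoidHom.ker = Nat.card (LinearMap.ker g) := rfl
  rw [h2, h3, hk] at h1
  rw [mul_comm]
  exact h1

end

/-- quaternionic structures with values in a group come from linked families -/
theorem elem_of_fam (S : QData) (hS : IsQuat S) (hfin : Finite S.G) {B : Type v}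
    [AddCommGroup B] (hB : ∀ b : B, b + b = 0) (β : S.G → S.G → B)
    (hmul : ∀ a b c, β a (b * c) = β a b + β a c)
    (hiff : ∀ a b c d, β a b = β c d ↔ S.q a b = S.q c d)
    (H : ∀ [Module (ZMod 2) (Additive S.G)] (A : Fam (Additive S.G)),
      EFam (Additive.ofMul S.neg) A → Linked A →
      (∀ a b c d : S.G, S.q a b = S.q c d → ∀ ω ∈ A,
        ω (Additive.ofMul a) (Additive.ofMul b) = ω (Additive.ofMul c) (Additive.ofMul d)) →
      Hered A) : Elem S := by
  classical
  obtain ⟨hcore, hPL, hout, hconv⟩ := Pool.Agent.W622.ETG.all_parts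
  let _ : Module (ZMod 2) (Additive S.G) := AddCommGroup.zmodModule (n := 2) (by
    intro x
    rw [two_smul]
    exact hS.exp2 x.toMul)
  have hfV : Finite (Additive S.G) := hfin
  have q1 : ∀ a, S.q a 1 = S.zero := by
    intro a
    have := (hS.qs3 a 1 1).1 rfl
    rwa [mul_one] at this
  have b1 : ∀ a, β a 1 = 0 := by
    intro a
    have := hmul a 1 1
    rw [mul_one] at this
    exact left_eq_add.1 this
  have hz : ∀ a b, β a b = 0 ↔ S.q a b = S.zero := by
    intro a b
    rw [← b1 a, ← q1 a, hiff]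
  have hsym : ∀ a b, β a b = β b a := fun a b => (hiff _ _ _ _).2 (hS.qs2 a b)
  have hmul' : ∀ a b c, β (a * b) c = β a c + β b c := by
    intro a b c
    rw [hsym, hmul, hsym c, hsym c]
  -- the form of a character
  let frm (l : B →+ ZMod 2) : Frm (Additive S.G) :=
    AddMonoidHom.toZModLinearMap 2
      { toFun := fun a => AddMonoidHom.toZModLinearMap 2
          { toFun := fun b => l (β a.toMul b.toMul)
            map_zero' := by
              show l (β a.toMul 1) = 0
              rw [b1, map_zero]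
            map_add' := fun b c => by
              show l (β a.toMul (b.toMul * c.toMul)) = _
              rw [hmul, map_add] }
        map_zero' := by
          ext b
          show l (β 1 b.toMul) = 0
          rw [hsym, b1, map_zero]
        map_add' := fun a a' => by
          ext b
          show l (β (a.toMul * a'.toMul) b.toMul) = l _ + l _
          rw [hmul', map_add] }
  have hfrm : ∀ l a b, frm l a b = l (β a.toMul b.toMul) := fun _ _ _ => rfl
  let A : Fam (Additive S.G) :=
    { carrier := {ω | ∃ l : B →+ ZMod 2, ω = frm l}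
      add_mem' := by
        rintro _ _ ⟨l, rfl⟩ ⟨l', rfl⟩
        exact ⟨l + l', by ext a b; rfl⟩
      zero_mem' := ⟨0, by ext a b; rfl⟩
      smul_mem' := by
        rintro c _ ⟨l, rfl⟩
        refine ⟨c.val • l, ?_⟩
        ext a b
        rw [LinearMap.smul_apply, LinearMap.smul_apply, hfrm, hfrm, AddMonoidHom.nsmul_apply]
        simp }
  set e : Additive S.G := Additive.ofMul S.neg with he
  have hEF : EFam e A := by
    rintro ω ⟨l, rfl⟩
    constructor
    · intro a b
      rw [hfrm, hfrm, hsym]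
    · intro a
      have h1 : β a.toMul (S.neg * a.toMul) = 0 := (hz _ _).2 (hS.qs1 a.toMul)
      rw [hmul] at h1
      have h2 : β a.toMul a.toMul = β a.toMul S.neg := by
        have h3 := hB (β a.toMul S.neg)
        rw [← h3] at h1
        exact add_left_cancel h1
      rw [hfrm, hfrm, h2]
      rfl
  -- linkage by gluing
  have hL : Linked A := by
    rintro ω ⟨l, rfl⟩ η ⟨m, rfl⟩ a c hac
    have hac' : ∀ b, l (β a.toMul b) = m (β c.toMul b) := by
      intro b
      have := LinearMap.congr_fun hac (Additive.ofMul b)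
      rwa [hfrm, hfrm] at this
    let Φ : Additive S.G × Additive S.G →+ B :=
      AddMonoidHom.mk' (fun z => β a.toMul z.1.toMul + β c.toMul z.2.toMul) (by
        intro z z'
        simp only [Prod.fst_add, Prod.snd_add, toMul_add, hmul]
        abel)
    let Λ : Additive S.G × Additive S.G →+ ZMod 2 :=
      AddMonoidHom.mk' (fun z => l (β a.toMul z.1.toMul) + m (β c.toMul z.2.toMul)) (by
        intro z z'
        simp only [Prod.fst_add, Prod.snd_add, toMul_add, hmul, map_add]
        abel)
    obtain ⟨k, hk⟩ := exists_factor hB Φ Λ (by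
      rintro ⟨b, d⟩ h
      have h1 : β a.toMul b.toMul + β c.toMul d.toMul = 0 := h
      have h2 : β a.toMul b.toMul = β c.toMul d.toMul := by
        have h3 := hB (β c.toMul d.toMul)
        rw [← h3] at h1
        exact add_right_cancel h1
      obtain ⟨x, hx1, hx2⟩ := hS.qs4 _ _ _ _ ((hiff _ _ _ _).1 h2)
      have e1 := (hiff _ _ _ _).2 hx1
      have e2 := (hiff _ _ _ _).2 hx2
      show l (β a.toMul b.toMul) + m (β c.toMul d.toMul) = 0
      rw [e1, e2, hac']
      exact CharTwo.add_self_eq_zero _)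
    refine ⟨frm k, ⟨k, rfl⟩, ?_, ?_⟩
    · ext b
      rw [hfrm, hfrm]
      have := hk (b, 0)
      have h1 : Φ (b, 0) = β a.toMul b.toMul := by
        show β a.toMul b.toMul + β c.toMul 1 = _
        rw [b1, add_zero]
      have h2 : Λ (b, 0) = l (β a.toMul b.toMul) := by
        show l (β a.toMul b.toMul) + m (β c.toMul 1) = _
        rw [b1, map_zero, add_zero]
      rw [h1, h2] at this
      exact this
    · ext b
      rw [hfrm, hfrm]
      have := hk (0, b)
      have h1 : Φ (0, b) = β c.toMul b.toMul := by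
        show β a.toMul 1 + β c.toMul b.toMul = _
        rw [b1, zero_add]
      have h2 : Λ (0, b) = m (β c.toMul b.toMul) := by
        show l (β a.toMul 1) + m (β c.toMul b.toMul) = _
        rw [b1, map_zero, zero_add]
      rw [h1, h2] at this
      rw [this]
      exact (hac' _).symm
  have hher : Hered A := by
    refine H A hEF hL ?_
    rintro a b c d h ω ⟨l, rfl⟩
    rw [hfrm, hfrm]
    congr 1
    exact (hiff _ _ _ _).2 h
  have hElem : Elem (QD e A) := hout _ _ _ (hcore _ _ _ hEF hher)
  refine Elem.iso _ _ hElem ⟨MulEquiv.multiplicativeAdditive S.G, rfl, ?_⟩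
  intro a b c d
  rw [QD_eq]
  constructor
  · intro h
    show S.q a.toAdd.toMul b.toAdd.toMul = S.q c.toAdd.toMul d.toAdd.toMul
    rw [← hiff]
    by_contra hne
    obtain ⟨l, -, hl⟩ := exists_char (⊥ : AddSubgroup B) (fun x => by
      rw [AddSubgroup.mem_bot]; exact hB x)
      (β a.toAdd.toMul b.toAdd.toMul - β c.toAdd.toMul d.toAdd.toMul) (by
        rw [AddSubgroup.mem_bot, sub_eq_zero]; exact hne)
    apply hl
    rw [map_sub, sub_eq_zero]
    exact h (frm l) ⟨l, rfl⟩
  · rintro h ω ⟨l, rfl⟩
    rw [hfrm, hfrm]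
    congr 1
    exact (hiff _ _ _ _).2 h

end Pool.Agent.K3h50.ETT
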