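import Pool.Agent.K3h50.ETT.Fam

set_option autoImplicit false

/-! The smallness condition for quaternionic structures. -/

namespace Pool.Agent.K3h50.ETT

open Pool.Agent.H315R3.ETC Pool.Agent.W622.ETG Module Pool.Agent.TH188.ETP
open Pool.Agent.TH188.ETV (z2)

universe v

/-- the quaternions with a slot in the subset `W` of `G` -/
def qs (S : QData) (W : Set S.G) : Set S.Q := {t | ∃ g ∈ W, ∃ b : S.G, S.q g b = t}

/-- the smallness condition at `x, y, z` -/
def SmS (S : QData) (x y z : S.G) : Prop :=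
  (qs S (Subgroup.closure {x, y, z} : Subgroup S.G)).ncard ≤ 27 ∨
  256 * {a : S.G | 8 < (qs S {a}).ncard ∧
    ∀ w ∈ Subgroup.closure {x, y, z}, S.q w a = S.zero → w = 1}.ncard < Nat.card S.G ∨
  ∀ p : S.G, p = x ∨ p = y ∨ p = z ∨ p = x * y * z → (qs S {p}).ncard ≤ 4

section
variable {S : QData} [Module (ZMod 2) (Additive S.G)]

theorem bz_xor : ∀ w < 8, ∀ w' < 8, ∀ i < 3, bz (w ^^^ w') i = bz w i + bz w' i := by decide

theorem xor_lt : ∀ w < 8, ∀ w' < 8, w ^^^ w' < 8 := by decide

theorem PP_xor {V : Type} [AddCommGroup V] [Module (ZMod 2) V] (x y z : V) {w w' : ℕ}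
    (hw : w < 8) (hw' : w' < 8) : PP x y z (w ^^^ w') = PP x y z w + PP x y z w' := by
  unfold PP
  rw [bz_xor w hw w' hw' 0 (by norm_num), bz_xor w hw w' hw' 1 (by norm_num),
    bz_xor w hw w' hw' 2 (by norm_num), add_smul, add_smul, add_smul]
  abel

theorem closure_PP (x y z g : S.G) (h : g ∈ Subgroup.closure {x, y, z}) :
    ∃ w < 8, Additive.ofMul g =
      PP (Additive.ofMul x) (Additive.ofMul y) (Additive.ofMul z) w := by
  induction h using Subgroup.closure_induction with
  | mem g hg =>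
    rcases hg with rfl | rfl | rfl
    · exact ⟨1, by norm_num, (PP_one _ _ _).symm⟩
    · exact ⟨2, by norm_num, (PP_two _ _ _).symm⟩
    · exact ⟨4, by norm_num, (PP_four _ _ _).symm⟩
  | one =>
    refine ⟨0, by norm_num, ?_⟩
    unfold PP
    rw [show bz 0 0 = 0 from rfl, show bz 0 1 = 0 from rfl, show bz 0 2 = 0 from rfl, zero_smul,
      zero_smul, zero_smul, add_zero, add_zero]
    rfl
  | mul a b _ _ ha hb =>
    obtain ⟨w, hw, e1⟩ := ha
    obtain ⟨w', hw', e2⟩ := hb
    exact ⟨w ^^^ w', xor_lt w hw w' hw', by rw [PP_xor _ _ _ hw hw', ← e1, ← e2]; rfl⟩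
  | inv a _ ha =>
    obtain ⟨w, hw, e1⟩ := ha
    refine ⟨w, hw, ?_⟩
    rw [← e1]
    have : Additive.ofMul a + Additive.ofMul a = 0 := vadd _
    show -(Additive.ofMul a) = Additive.ofMul a
    exact neg_eq_of_add_eq_zero_left this

theorem PP_mem (x y z : S.G) (w : ℕ) :
    (PP (Additive.ofMul x) (Additive.ofMul y) (Additive.ofMul z) w).toMul ∈
      Subgroup.closure {x, y, z} := by
  have hs : ∀ (c : ZMod 2) (a : S.G), a ∈ Subgroup.closure {x, y, z} →
      (c • Additive.ofMul a).toMul ∈ Subgroup.closure {x, y, z} := by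
    intro c a ha
    rcases z2 c with rfl | rfl
    · rw [zero_smul]; exact Subgroup.one_mem _
    · rw [one_smul]; exact ha
  unfold PP
  exact Subgroup.mul_mem _ (Subgroup.mul_mem _
    (hs _ _ (Subgroup.subset_closure (by simp)))
    (hs _ _ (Subgroup.subset_closure (by simp))))
    (hs _ _ (Subgroup.subset_closure (by simp)))

theorem qs_finite (hfin : Finite S.G) (W : Set S.G) : (qs S W).Finite := by
  refine (Set.finite_range (fun p : S.G × S.G => S.q p.1 p.2)).subset ?_
  rintro t ⟨g, -, b, rfl⟩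
  exact ⟨(g, b), rfl⟩

/-- the number of values is at most the number of quaternions -/
theorem pow_le_qs (hfin : Finite S.G) {A : Fam (Additive S.G)}
    (hq : ∀ a b c d : S.G, S.q a b = S.q c d → ∀ ω ∈ A,
      ω (Additive.ofMul a) (Additive.ofMul b) = ω (Additive.ofMul c) (Additive.ofMul d))
    (a : S.G) : 2 ^ finrank (ZMod 2) (vals A (Additive.ofMul a)) ≤ (qs S {a}).ncard := by
  classical
  have hfV : Finite (Additive S.G) := hfin
  let D := (vals A (Additive.ofMul a) →ₗ[ZMod 2] ZMod 2)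
  let g : Additive S.G → D := fun b => (LinearMap.applyₗ b).comp (vals A (Additive.ofMul a)).subtype
  have hsurj : Function.Surjective g := by
    intro φ
    obtain ⟨b, hb⟩ := exists_val (vals A (Additive.ofMul a)) φ
    exact ⟨b, LinearMap.ext fun f => hb f⟩
  let ψ : S.Q → D := fun t => if h : ∃ b : S.G, S.q a b = t then g (Additive.ofMul h.choose) else 0
  have hψ : ∀ b : S.G, ψ (S.q a b) = g (Additive.ofMul b) := by
    intro b
    have h : ∃ b' : S.G, S.q a b' = S.q a b := ⟨b, rfl⟩
    show (if h : ∃ b' : S.G, S.q a b' = S.q a b then g (Additive.ofMul h.choose) else 0) = _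
    rw [dif_pos h]
    ext ⟨f, hf⟩
    obtain ⟨ω, hω, rfl⟩ := mem_vals.1 hf
    exact hq a h.choose a b h.choose_spec ω hω
  have himg : (Set.univ : Set D) ⊆ ψ '' qs S {a} := by
    rintro φ -
    obtain ⟨b, rfl⟩ := hsurj φ
    exact ⟨S.q a b.toMul, ⟨a, rfl, _, rfl⟩, hψ b.toMul⟩
  have h1 : 2 ^ finrank (ZMod 2) (vals A (Additive.ofMul a)) = Nat.card D := by
    rw [Module.natCard_eq_pow_finrank (K := ZMod 2), Nat.card_zmod, Subspace.dual_finrank_eq]
  rw [h1, ← Set.ncard_univ]
  exact (Set.ncard_le_ncard himg ((qs_finite hfin {a}).image _)).trans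
    (Set.ncard_image_le (qs_finite hfin {a}))

theorem sm_of_smS (hS : IsQuat S) (hfin : Finite S.G) {A : Fam (Additive S.G)}
    (hq : ∀ a b c d : S.G, S.q a b = S.q c d → ∀ ω ∈ A,
      ω (Additive.ofMul a) (Additive.ofMul b) = ω (Additive.ofMul c) (Additive.ofMul d))
    (x y z : S.G) (h : SmS S x y z) :
    Sm A (Additive.ofMul x) (Additive.ofMul y) (Additive.ofMul z) := by
  classical
  have hfV : Finite (Additive S.G) := hfin
  have q1 : ∀ a : S.G, S.q a 1 = S.zero := by
    intro a
    have := (hS.qs3 a 1 1).1 rfl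
    rwa [mul_one] at this
  rcases h with h | h | h
  · left
    refine le_trans ?_ h
    let ψ : S.Q → (A → ZMod 2) := fun t ω =>
      if h : ∃ p : S.G × S.G, S.q p.1 p.2 = t then
        ω.1 (Additive.ofMul h.choose.1) (Additive.ofMul h.choose.2) else 0
    have hψ : ∀ a b : S.G, ψ (S.q a b) = fun ω => ω.1 (Additive.ofMul a) (Additive.ofMul b) := by
      intro a b
      have h : ∃ p : S.G × S.G, S.q p.1 p.2 = S.q a b := ⟨(a, b), rfl⟩
      ext ω
      show (if h : ∃ p : S.G × S.G, S.q p.1 p.2 = S.q a b then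
        ω.1 (Additive.ofMul h.choose.1) (Additive.ofMul h.choose.2) else 0) = _
      rw [dif_pos h]
      exact hq _ _ _ _ h.choose_spec ω.1 ω.2
    have himg : TW A (Additive.ofMul x) (Additive.ofMul y) (Additive.ofMul z) ⊆
        ψ '' qs S (Subgroup.closure {x, y, z} : Subgroup S.G) := by
      rintro k ⟨w, hw, v, rfl⟩
      exact ⟨_, ⟨_, PP_mem x y z w, v.toMul, rfl⟩, hψ _ _⟩
    exact (Set.ncard_le_ncard himg ((qs_finite hfin _).image _)).trans
      (Set.ncard_image_le (qs_finite hfin _))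
  · right; left
    refine lt_of_le_of_lt (Nat.mul_le_mul_left _ ?_) h
    have himg : BadW A (Additive.ofMul x) (Additive.ofMul y) (Additive.ofMul z) ⊆
        Additive.ofMul '' {a : S.G | 8 < (qs S {a}).ncard ∧
          ∀ w ∈ Subgroup.closure {x, y, z}, S.q w a = S.zero → w = 1} := by
      rintro v ⟨h1, h2⟩
      refine ⟨v.toMul, ⟨?_, ?_⟩, rfl⟩
      · by_contra hc
        push Not at hc
        apply h1
        have h3 := (pow_le_qs hfin hq v.toMul).trans hc
        show finrank (ZMod 2) (vals A v) ≤ 3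
        by_contra h4
        have h5 : 2 ^ 4 ≤ 2 ^ finrank (ZMod 2) (vals A v) :=
          Nat.pow_le_pow_right (by norm_num) (by omega)
        have h6 : 2 ^ finrank (ZMod 2) (vals A v) ≤ 8 := h3
        omega
      · intro g hg hg0
        obtain ⟨w, hw, e1⟩ := closure_PP x y z g hg
        rcases Nat.eq_zero_or_pos w with rfl | hw1
        · have e2 : Additive.ofMul g = 0 := by
            rw [e1]
            unfold PP
            rw [show bz 0 0 = 0 from rfl, show bz 0 1 = 0 from rfl, show bz 0 2 = 0 from rfl,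
              zero_smul, zero_smul, zero_smul, add_zero, add_zero]
          exact e2
        · exfalso
          obtain ⟨ω, hω, hne⟩ := h2 w hw1 hw
          apply hne
          rw [← e1]
          have := hq g v.toMul g 1 (hg0.trans (q1 g).symm) ω hω
          refine this.trans ?_
          exact map_zero (ω (Additive.ofMul g))
    exact (Set.ncard_le_ncard himg (Set.toFinite _)).trans (Set.ncard_image_le (Set.toFinite _))
  · right; right
    have hR : ∀ p : S.G, (qs S {p}).ncard ≤ 4 → R2 A (Additive.ofMul p) := by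
      intro p hp
      have h3 := (pow_le_qs hfin hq p).trans hp
      have h4 : finrank (ZMod 2) (vals A (Additive.ofMul p)) ≤ 2 := by
        by_contra h4
        have h5 : 2 ^ 3 ≤ 2 ^ finrank (ZMod 2) (vals A (Additive.ofMul p)) :=
          Nat.pow_le_pow_right (by norm_num) (by omega)
        omega
      intro ω₁ m₁ ω₂ m₂ ω₃ m₃
      have hli : ¬ LinearIndependent (ZMod 2) ![(⟨ω₁ (Additive.ofMul p), mem_vals.2 ⟨ω₁, m₁, rfl⟩⟩ :
          vals A (Additive.ofMul p)), ⟨ω₂ (Additive.ofMul p), mem_vals.2 ⟨ω₂, m₂, rfl⟩⟩,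
          ⟨ω₃ (Additive.ofMul p), mem_vals.2 ⟨ω₃, m₃, rfl⟩⟩] := by
        intro hli
        have := hli.fintype_card_le_finrank
        rw [Fintype.card_fin] at this
        omega
      rw [Fintype.linearIndependent_iff] at hli
      push Not at hli
      obtain ⟨c, hc, i, hi⟩ := hli
      rw [Fin.sum_univ_three] at hc
      have hc' : c 0 • ω₁ (Additive.ofMul p) + c 1 • ω₂ (Additive.ofMul p) +
          c 2 • ω₃ (Additive.ofMul p) = 0 := congrArg Subtype.val hc
      have hne : ¬ (c 0 = 0 ∧ c 1 = 0 ∧ c 2 = 0) := by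
        rintro ⟨h0, h1, h2⟩
        fin_cases i
        · exact hi h0
        · exact hi h1
        · exact hi h2
      rcases z2 (c 0) with h0 | h0 <;> rcases z2 (c 1) with h1 | h1 <;>
        rcases z2 (c 2) with h2 | h2 <;> rw [h0, h1, h2] at hc' <;>
        simp only [zero_smul, one_smul, zero_add, add_zero] at hc'
      · exact absurd ⟨h0, h1, h2⟩ hne
      · exact Or.inr (Or.inr (Or.inl hc'))
      · exact Or.inr (Or.inl hc')
      · exact Or.inr (Or.inr (Or.inr (Or.inr (Or.inr (Or.inl
          (Pool.Agent.W622.ETC.add_eq_zero'.1 hc'))))))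
      · exact Or.inl hc'
      · exact Or.inr (Or.inr (Or.inr (Or.inr (Or.inl (Pool.Agent.W622.ETC.add_eq_zero'.1 hc')))))
      · exact Or.inr (Or.inr (Or.inr (Or.inl (Pool.Agent.W622.ETC.add_eq_zero'.1 hc'))))
      · refine Or.inr (Or.inr (Or.inr (Or.inr (Or.inr (Or.inr ?_)))))
        rw [add_assoc] at hc'
        exact Pool.Agent.W622.ETC.add_eq_zero'.1 hc'
    exact ⟨hR _ (h x (Or.inl rfl)), hR _ (h y (Or.inr (Or.inl rfl))),
      hR _ (h z (Or.inr (Or.inr (Or.inl rfl)))), hR _ (h _ (Or.inr (Or.inr (Or.inr rfl))))⟩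

end

theorem elem_of_smS (S : QData) (hS : IsQuat S) (hfin : Finite S.G) {B : Type v}
    [AddCommGroup B] (hB : ∀ b : B, b + b = 0) (β : S.G → S.G → B)
    (hmul : ∀ a b c, β a (b * c) = β a b + β a c)
    (hiff : ∀ a b c d, β a b = β c d ↔ S.q a b = S.q c d)
    (h : ∀ x y z : S.G, SmS S x y z) : Elem S := by
  refine elem_of_fam S hS hfin hB β hmul hiff ?_
  intro _ A hA hL hq
  have hfV : Finite (Additive S.G) := hfin
  exact hered_of_Sm hA hL fun x y z => sm_of_smS hS hfin hq x.toMul y.toMul z.toMul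
    (h x.toMul y.toMul z.toMul)

end Pool.Agent.K3h50.ETT
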