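import Pool.Agent.K3h50.ETT.Contra
import Pool.Agent.K3h50.ETT.Check

set_option autoImplicit false

/-! Plane linkage for families with three-dimensional value spaces. -/

namespace Pool.Agent.K3h50.ETT

open Pool.Agent.W622.ETG Module Pool.Agent.TH188.ETP

section
variable {V : Type} [AddCommGroup V] [Module (ZMod 2) V] {e : V}

/-- the word of `v` -/
def cd {A : Fam V} {x y z : V} (D : Dat A e x y z) (v : V) : ℕ :=
  Nat.ofBits (n := 8) fun i => decide (i.val ≠ 0 ∧ D.f i.val v = 1)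

theorem cd_testBit {A : Fam V} {x y z : V} (D : Dat A e x y z) (v : V) {l : ℕ} (h1 : 1 ≤ l)
    (h8 : l < 8) : (cd D v).testBit l = decide (D.f l v = 1) := by
  unfold cd
  rw [Nat.testBit_ofBits_lt _ _ h8]
  have : l ≠ 0 := by omega
  simp [this]

theorem cd_zero {A : Fam V} {x y z : V} (D : Dat A e x y z) (v : V) :
    (cd D v).testBit 0 = false := by
  unfold cd
  rw [Nat.testBit_ofBits_lt _ _ (by norm_num)]
  simp

theorem cd_ge {A : Fam V} {x y z : V} (D : Dat A e x y z) (v : V) {l : ℕ} (h8 : 8 ≤ l) :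
    (cd D v).testBit l = false := by
  unfold cd
  rw [Nat.testBit_ofBits_ge _ _ h8]

theorem cd_even {A : Fam V} {x y z : V} (D : Dat A e x y z) (v : V) :
    ∃ i < 128, cd D v = 2 * i := by
  have h1 : cd D v < 2 ^ 8 := Nat.ofBits_lt_two_pow _
  have h2 := cd_zero D v
  rw [Nat.testBit_zero] at h2
  have h3 : cd D v % 2 = 0 := by
    simp at h2
    exact h2
  exact ⟨cd D v / 2, by omega, by omega⟩

theorem cd_ext {A : Fam V} {x y z : V} (D : Dat A e x y z) (v : V) {s : ℕ}
    (h0 : s.testBit 0 = false) (h8 : ∀ l, 8 ≤ l → s.testBit l = false)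
    (h : ∀ l, 1 ≤ l → l < 8 → s.testBit l = decide (D.f l v = 1)) : cd D v = s := by
  apply Nat.eq_of_testBit_eq
  intro l
  rcases Nat.eq_zero_or_pos l with rfl | hl
  · rw [cd_zero, h0]
  · by_cases hl8 : l < 8
    · rw [cd_testBit D v hl hl8, h l hl hl8]
    · rw [cd_ge D v (by omega), h8 l (by omega)]

theorem cd_add {A : Fam V} {x y z : V} (D : Dat A e x y z) (v v' : V) :
    cd D (v + v') = cd D v ^^^ cd D v' := by
  refine cd_ext D _ ?_ ?_ ?_
  · rw [Nat.testBit_xor, cd_zero, cd_zero]; rfl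
  · intro l hl
    rw [Nat.testBit_xor, cd_ge D v hl, cd_ge D v' hl]; rfl
  · intro l h1 h8
    rw [Nat.testBit_xor, cd_testBit D v h1 h8, cd_testBit D v' h1 h8, map_add]
    have : ∀ a b : ZMod 2, xor (decide (a = 1)) (decide (b = 1)) = decide (a + b = 1) := by decide
    exact this _ _

theorem cm_testBit : ∀ w < 8, ∀ l < 8, (cm w).testBit l = decide (pr l w = 1) := by decide

theorem cm_lt : ∀ w < 8, cm w < 256 := by decide

theorem cd_PP {A : Fam V} {x y z : V} (D : Dat A e x y z) {w : ℕ} (hw : w < 8) :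
    cd D (PP x y z w) = cd D e &&& cm w := by
  refine cd_ext D _ ?_ ?_ ?_
  · rw [Nat.testBit_and, cd_zero]; rfl
  · intro l hl
    rw [Nat.testBit_and, cd_ge D e hl]; rfl
  · intro l h1 h8
    rw [Nat.testBit_and, cd_testBit D e h1 h8, cm_testBit w hw l h8, D.eps l h1 h8]
    have : ∀ a b : ZMod 2, (decide (a = 1) && decide (b = 1)) = decide (b * a = 1) := by decide
    exact this _ _

theorem sp_of_code {A : Fam V} {x y z : V} (D : Dat A e x y z) {v : V} (h : sp (cd D v) = true) :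
    SpD D v := by
  intro w h1 h8
  have hne : cd D v &&& cm w ≠ 0 := by
    unfold sp at h
    simp only [Bool.and_eq_true, bne_iff_ne] at h
    obtain ⟨⟨⟨⟨⟨⟨g1, g2⟩, g3⟩, g4⟩, g5⟩, g6⟩, g7⟩ := h
    interval_cases w
    · exact g1
    · exact g2
    · exact g3
    · exact g4
    · exact g5
    · exact g6
    · exact g7
  obtain ⟨l, hl⟩ := Nat.exists_testBit_of_ne_zero hne
  rw [Nat.testBit_and, Bool.and_eq_true] at hl
  obtain ⟨hl1, hl2⟩ := hl
  have l8 : l < 8 := by
    by_contra hc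
    rw [cd_ge D v (by omega)] at hl1
    exact Bool.false_ne_true hl1
  have l1 : 1 ≤ l := by
    rcases Nat.eq_zero_or_pos l with rfl | h'
    · rw [cd_zero] at hl1
      exact absurd hl1 Bool.false_ne_true
    · exact h'
  rw [cd_testBit D v l1 l8, decide_eq_true_eq] at hl1
  rw [cm_testBit w h8 l l8, decide_eq_true_eq] at hl2
  exact ⟨l, l1, l8, hl2, hl1⟩

theorem trip_spec : ∀ t ∈ trip, 1 ≤ t.1 ∧ t.1 < 8 ∧ 1 ≤ t.2.1 ∧ t.2.1 < 8 ∧ t.2.2 < 8 ∧
    pr t.1 t.2.2 = 1 ∧ pr t.2.1 t.2.2 = 0 := by decide +kernel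

theorem noG [Finite V] {A : Fam V} (hA : EFam e A) {x y z : V} (D : Dat A e x y z)
    (hB : 256 * (BadW A x y z).ncard < Nat.card V) (v : V) : G (cd D e) (cd D v) = false := by
  by_contra hG
  rw [Bool.not_eq_false] at hG
  unfold G at hG
  rw [Bool.and_eq_true, List.any_eq_true] at hG
  obtain ⟨hs, t, ht, h⟩ := hG
  obtain ⟨l1, l8, m1, m8, w8, hl, hm⟩ := trip_spec t ht
  simp only [Bool.and_eq_true, Bool.not_eq_true'] at h
  obtain ⟨⟨⟨h1, h2⟩, h3⟩, h4⟩ := h
  rw [cd_testBit D _ l1 l8, decide_eq_false_iff_not] at h1 h2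
  rw [cd_testBit D _ m1 m8, decide_eq_false_iff_not] at h3
  rw [← cd_PP D w8, ← cd_add] at h4
  exact r1 hA D hB l1 l8 m1 m8 (z_ne' h1) hl hm (z_ne' h2) (z_ne' h3) (sp_of_code D hs)
    (sp_of_code D h4)

theorem qq [Finite V] {A : Fam V} (hA : EFam e A) {x y z : V} (D : Dat A e x y z)
    (hB : 256 * (BadW A x y z).ncard < Nat.card V) : QQ (cd D e) (fun s => ∃ v, cd D v = s) where
  lt := by rintro s ⟨v, rfl⟩; exact cd_even D v
  xor := by rintro s t ⟨v, rfl⟩ ⟨v', rfl⟩; exact ⟨v + v', cd_add D v v'⟩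
  QE := ⟨e, rfl⟩
  Qc := fun w hw => ⟨_, cd_PP D hw⟩
  hG := by rintro s ⟨v, rfl⟩; exact noG hA D hB v

theorem line_contra [Finite V] {A : Fam V} (hA : EFam e A) {x y z : V} (D : Dat A e x y z)
    (hB : 256 * (BadW A x y z).ncard < Nat.card V) (E k1 k2 k3 l m w w' : ℕ) (hE : cd D e = E)
    (hQ : ∀ v, cd D v &&& (254 ^^^ E) = 0 ∨ cd D v &&& (254 ^^^ E) = 254 ^^^ E)
    (hk1 : 1 ≤ k1 ∧ k1 < 8 ∧ E.testBit k1 = true) (hk2 : 1 ≤ k2 ∧ k2 < 8 ∧ E.testBit k2 = true)
    (hk3 : 1 ≤ k3 ∧ k3 < 8 ∧ E.testBit k3 = true)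
    (hl : 1 ≤ l ∧ l < 8 ∧ E.testBit l = false ∧ (254 ^^^ E).testBit l = true)
    (hm : 1 ≤ m ∧ m < 8 ∧ (254 ^^^ E).testBit m = true)
    (hspan : ∀ w < 7, ∃ l < 8, 1 ≤ l ∧ (254 ^^^ E).testBit l = true ∧ pr l (w + 1) = 1)
    (p1 : pr k1 w = 1) (p2 : pr k2 w = 1) (p3 : pr k3 w = 0)
    (q1 : pr k1 w' = 0) (q2 : pr k2 w' = 1) (q3 : pr k3 w' = 1)
    (pl : pr l w = 1) (pm : pr m w = 0)
    (s1 : ∀ v < 8, pr l v + pr m v = pr k1 v) (s2 : ∀ v < 8, pr k1 v = pr k2 v + pr k3 v) :
    False := by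
  have mask : ∀ v, ∀ a, 1 ≤ a → a < 8 → (254 ^^^ E).testBit a = true →
      (cd D v).testBit a = (cd D v &&& (254 ^^^ E)).testBit a := by
    intro v a _ _ h
    rw [Nat.testBit_and, h, Bool.and_true]
  have hone : ∀ k, 1 ≤ k ∧ k < 8 ∧ E.testBit k = true → D.f k e = 1 := by
    rintro k ⟨h1, h8, hk⟩
    rw [← hE, cd_testBit D e h1 h8, decide_eq_true_eq] at hk
    exact hk
  have hel : D.f l e = 0 := by
    have h := hl.2.2.1
    rw [← hE, cd_testBit D e hl.1 hl.2.1, decide_eq_false_iff_not] at h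
    exact z_ne' h
  have heq : ∀ v, ∀ a b, 1 ≤ a → a < 8 → 1 ≤ b → b < 8 → (254 ^^^ E).testBit a = true →
      (254 ^^^ E).testBit b = true → (D.f a v = 1 ↔ D.f b v = 1) := by
    intro v a b a1 a8 b1 b8 ha hb
    have e1 := mask v a a1 a8 ha
    have e2 := mask v b b1 b8 hb
    rw [cd_testBit D v a1 a8] at e1
    rw [cd_testBit D v b1 b8] at e2
    rcases hQ v with h | h
    · rw [h, Nat.zero_testBit, decide_eq_false_iff_not] at e1 e2
      exact ⟨fun h => absurd h e1, fun h => absurd h e2⟩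
    · rw [h, ha, decide_eq_true_eq] at e1
      rw [h, hb, decide_eq_true_eq] at e2
      exact ⟨fun _ => e2, fun _ => e1⟩
  refine rLine hA D hB hk1.1 hk1.2.1 hk2.1 hk2.2.1 hk3.1 hk3.2.1 hl.1 hl.2.1 hm.1 hm.2.1
    (hone _ hk1) (hone _ hk2) (hone _ hk3) hel ?_ ?_ p1 p2 p3 q1 q2 q3 pl pm s1 s2
  · ext v
    have := heq v m l hm.1 hm.2.1 hl.1 hl.2.1 hm.2.2 hl.2.2.2
    rcases z01 (D.f l v) with h | h <;> rcases z01 (D.f m v) with h' | h'
    · rw [h, h']
    · exact absurd (h.symm.trans (this.1 h')) zero_ne_one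
    · exact absurd (h'.symm.trans (this.2 h)) zero_ne_one
    · rw [h, h']
  · intro v hv w h1 h8
    obtain ⟨a, a8, a1, ha, hp⟩ := hspan (w - 1) (by omega)
    rw [Nat.sub_add_cancel h1] at hp
    exact ⟨a, a1, a8, hp, (heq v l a hl.1 hl.2.1 a1 a8 hl.2.2.2 ha).1 hv⟩

/-- **plane linkage** at `x, y, z` if less than `|V|/256` elements are bad -/
theorem plane_of_D3 [Finite V] {A : Fam V} (hA : EFam e A) (hL : Linked A) (x y z : V)
    (hB : 256 * (BadW A x y z).ncard < Nat.card V) : PlaneAt A x y z := by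
  by_contra hP
  obtain ⟨D⟩ := exists_dat hA hL hP
  have hQ := qq hA D hB
  have tb : ∀ l, 1 ≤ l → l < 8 → (cd D (PP D.t1 D.t2 D.t3 l)).testBit l = true := by
    intro l h1 h8
    rw [cd_testBit D _ h1 h8, D.tt l h1 h8]
    rfl
  have i1 : PP D.t1 D.t2 D.t3 1 = D.t1 := PP_one _ _ _
  have i2 : PP D.t1 D.t2 D.t3 2 = D.t2 := PP_two _ _ _
  have i4 : PP D.t1 D.t2 D.t3 4 = D.t3 := PP_four _ _ _
  have i3 : PP D.t1 D.t2 D.t3 3 = D.t1 + D.t2 := by
    unfold PP
    rw [show bz 3 0 = 1 from rfl, show bz 3 1 = 1 from rfl, show bz 3 2 = 0 from rfl, one_smul,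
      one_smul, zero_smul, add_zero]
  have i5 : PP D.t1 D.t2 D.t3 5 = D.t1 + D.t3 := by
    unfold PP
    rw [show bz 5 0 = 1 from rfl, show bz 5 1 = 0 from rfl, show bz 5 2 = 1 from rfl, one_smul,
      one_smul, zero_smul, add_zero]
  have i6 : PP D.t1 D.t2 D.t3 6 = D.t2 + D.t3 := by
    unfold PP
    rw [show bz 6 0 = 0 from rfl, show bz 6 1 = 1 from rfl, show bz 6 2 = 1 from rfl, one_smul,
      one_smul, zero_smul, zero_add]
  have i7 : PP D.t1 D.t2 D.t3 7 = D.t1 + D.t2 + D.t3 := by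
    unfold PP
    rw [show bz 7 0 = 1 from rfl, show bz 7 1 = 1 from rfl, show bz 7 2 = 1 from rfl, one_smul,
      one_smul, one_smul]
  have b1 := tb 1 (by norm_num) (by norm_num)
  have b2 := tb 2 (by norm_num) (by norm_num)
  have b3 := tb 3 (by norm_num) (by norm_num)
  have b4 := tb 4 (by norm_num) (by norm_num)
  have b5 := tb 5 (by norm_num) (by norm_num)
  have b6 := tb 6 (by norm_num) (by norm_num)
  have b7 := tb 7 (by norm_num) (by norm_num)
  rw [i1] at b1
  rw [i2] at b2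
  rw [i3, cd_add] at b3
  rw [i4] at b4
  rw [i5, cd_add] at b5
  rw [i6, cd_add] at b6
  rw [i7, cd_add, cd_add] at b7
  rcases fin_check hQ ⟨D.t1, rfl⟩ ⟨D.t2, rfl⟩ ⟨D.t3, rfl⟩ b1 b2 b3 b4 b5 b6 b7 with h | ⟨h, hq⟩
  · refine rAll hA D hB fun l h1 h8 => ?_
    have h3 := cd_testBit D e h1 h8
    rw [h] at h3
    have h4 : ∀ l < 8, 1 ≤ l → Nat.testBit 254 l = true := by decide
    rw [h4 l h8 h1] at h3
    exact of_decide_eq_true h3.symm
  · have hq' : ∀ v, cd D v &&& (254 ^^^ cd D e) = 0 ∨ cd D v &&& (254 ^^^ cd D e) =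
        254 ^^^ cd D e := fun v => hq _ ⟨v, rfl⟩
    rcases h with h | h | h | h | h | h | h
    · exact line_contra hA D hB 14 1 2 3 4 5 7 2 h (h ▸ hq') (by decide) (by decide) (by decide)
        (by decide) (by decide) (by decide) (by decide) (by decide) (by decide) (by decide)
        (by decide) (by decide) (by decide) (by decide) (by decide) (by decide)
    · exact line_contra hA D hB 50 1 4 5 2 3 7 4 h (h ▸ hq') (by decide) (by decide) (by decide)
        (by decide) (by decide) (by decide) (by decide) (by decide) (by decide) (by decide)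
        (by decide) (by decide) (by decide) (by decide) (by decide) (by decide)
    · exact line_contra hA D hB 84 2 4 6 1 3 7 4 h (h ▸ hq') (by decide) (by decide) (by decide)
        (by decide) (by decide) (by decide) (by decide) (by decide) (by decide) (by decide)
        (by decide) (by decide) (by decide) (by decide) (by decide) (by decide)
    · exact line_contra hA D hB 104 3 5 6 1 2 1 3 h (h ▸ hq') (by decide) (by decide) (by decide)
        (by decide) (by decide) (by decide) (by decide) (by decide) (by decide) (by decide)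
        (by decide) (by decide) (by decide) (by decide) (by decide) (by decide)
    · exact line_contra hA D hB 152 3 4 7 1 2 5 4 h (h ▸ hq') (by decide) (by decide) (by decide)
        (by decide) (by decide) (by decide) (by decide) (by decide) (by decide) (by decide)
        (by decide) (by decide) (by decide) (by decide) (by decide) (by decide)
    · exact line_contra hA D hB 164 2 5 7 1 3 3 1 h (h ▸ hq') (by decide) (by decide) (by decide)
        (by decide) (by decide) (by decide) (by decide) (by decide) (by decide) (by decide)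
        (by decide) (by decide) (by decide) (by decide) (by decide) (by decide)
    · exact line_contra hA D hB 194 1 6 7 2 3 3 2 h (h ▸ hq') (by decide) (by decide) (by decide)
        (by decide) (by decide) (by decide) (by decide) (by decide) (by decide) (by decide)
        (by decide) (by decide) (by decide) (by decide) (by decide) (by decide)

end

end Pool.Agent.K3h50.ETT
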